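import Pool.Agent.Y274.NE.B4

/-! The linear dissipation. -/

open Set Filter Topology MeasureTheory

set_option autoImplicit false

namespace Pool.Agent.Y274.NE

open Pool.Agent.Y5 Pool.Agent.Y5.D Pool.Agent.Y5.E
open Pool.Agent.Y275.ND (finite_ball fib syn zl zr zlr zl_supp zr_supp zl_good zr_good)
open Pool.Agent.Y691.ND.F (sum_rap rap_all)

theorem t_FLD2 : S_FLD2 :=
  ⟨Pool.Agent.Y691.ND.t_FLD, fun _ hV rV k =>
    Pool.Agent.Y691.ND.F.coef_sin (Pool.Agent.Y691.ND.F.sum0 rV) hV.odd k⟩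

section gen

variable {J : Type} {g : J → ℕ} {L M : ℕ → ℝ} {e : Ix J → Fam}

lemma sob_eq (hF : S_FLD2) (s : ℝ) (V : Fam) (hV : OT V) (rV : Rap V) :
    sob s (fieldOf V) = ∑' k : Z3, (2 * Real.pi * ‖vec k‖) ^ (2 * s) * ‖V k‖ ^ 2 := by
  unfold sob
  apply tsum_congr
  intro k
  rw [hF.2 V hV rV k]

lemma sum_w {V : Fam} (hV : Rap V) (q : ℝ) (hq : 0 ≤ q) :
    Summable (fun k => (2 * Real.pi * ‖vec k‖) ^ q * ‖V k‖ ^ 2) := by
  set n := ⌈q⌉₊ with hn
  have hqn : q ≤ n := Nat.le_ceil q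
  have h : Summable (fun k => ‖((2 * Real.pi * ‖vec k‖) ^ q * ‖V k‖ ^ 2 : ℝ)‖) := by
    apply sum_rap
    obtain ⟨M1, hM1⟩ := rap_all hV (6 + n)
    obtain ⟨M0, hM0⟩ := hV 0
    refine ⟨(2 * Real.pi) ^ n * M1 * M0, fun k => ?_⟩
    have h1 : (2 * Real.pi * ‖vec k‖) ^ q ≤ (2 * Real.pi) ^ n * (1 + ‖vec k‖) ^ n := by
      have hp : (1:ℝ) ≤ 2 * Real.pi * (1 + ‖vec k‖) := by
        have h2 := Real.pi_gt_three
        have h3 := norm_nonneg (vec k)
        nlinarith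
      calc (2 * Real.pi * ‖vec k‖) ^ q ≤ (2 * Real.pi * (1 + ‖vec k‖)) ^ q := by
            apply Real.rpow_le_rpow (by positivity) _ hq
            have := Real.pi_pos
            have h3 := norm_nonneg (vec k)
            nlinarith
        _ ≤ (2 * Real.pi * (1 + ‖vec k‖)) ^ (n : ℝ) := Real.rpow_le_rpow_of_exponent_le hp hqn
        _ = (2 * Real.pi) ^ n * (1 + ‖vec k‖) ^ n := by rw [Real.rpow_natCast, mul_pow]
    have h4 := hM1 k
    have h5 := hM0 k
    rw [pow_zero, one_mul] at h5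
    have hM0' : 0 ≤ M0 := (norm_nonneg _).trans h5
    have hM1' : 0 ≤ M1 := le_trans (by positivity) h4
    have h6 : 0 ≤ (2 * Real.pi * ‖vec k‖) ^ q := by positivity
    rw [Real.norm_eq_abs, abs_of_nonneg (by positivity)]
    calc (1 + ‖vec k‖) ^ 6 * ((2 * Real.pi * ‖vec k‖) ^ q * ‖V k‖ ^ 2)
        ≤ (1 + ‖vec k‖) ^ 6 * (((2 * Real.pi) ^ n * (1 + ‖vec k‖) ^ n) * ‖V k‖ ^ 2) := by
          gcongr
      _ = (2 * Real.pi) ^ n * ((1 + ‖vec k‖) ^ (6 + n) * ‖V k‖) * ‖V k‖ := by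
          rw [pow_add]; ring
      _ ≤ (2 * Real.pi) ^ n * M1 * M0 := by gcongr
  refine h.congr (fun k => ?_)
  rw [Real.norm_eq_abs, abs_of_nonneg (by positivity)]

lemma wsum_a (h : Bs g L M e) {z : Ix J → ℝ}
    (hz : ∀ p : ℕ, ∃ Cp, ∀ a, L (gr g a) ^ p * |z a| ≤ Cp) {m : ℕ → ℝ}
    (hm : ∃ (D : ℝ) (p : ℕ), ∀ n, |m n| ≤ D * L n ^ p) :
    Summable (fun a => m (gr g a) * z a ^ 2) := by
  obtain ⟨D, p, hD⟩ := hm
  refine Summable.of_norm_bounded ((sq_of_rap h hz p).mul_left D) (fun a => ?_)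
  rw [norm_mul, Real.norm_eq_abs, Real.norm_eq_abs, abs_of_nonneg (sq_nonneg (z a)), ← mul_assoc]
  exact mul_le_mul_of_nonneg_right (hD _) (sq_nonneg _)

lemma wsum_k (h : Bs g L M e) {z : Ix J → ℝ}
    (hz : ∀ p : ℕ, ∃ Cp, ∀ a, L (gr g a) ^ p * |z a| ≤ Cp) {m : ℕ → ℝ}
    (hm : ∃ (D : ℝ) (p : ℕ), ∀ n, |m n| ≤ D * L n ^ p) {μ : Z3 → ℝ}
    (hμ : ∀ a k, e a k ≠ 0 → μ k = m (gr g a)) :
    Summable (fun k => μ k * ‖syn e z k‖ ^ 2) := by
  have hg := good_of_rap h hz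
  have hz' : ∀ p : ℕ, ∃ Cp, ∀ a, L (gr g a) ^ p * |m (gr g a) * z a| ≤ Cp := by
    intro p
    obtain ⟨D, q, hD⟩ := hm
    obtain ⟨Cq, hCq⟩ := hz (p + q)
    refine ⟨|D| * Cq, fun a => ?_⟩
    have h1 := hD (gr g a)
    have h2 := hCq a
    have h3 : (0:ℝ) ≤ L (gr g a) := by linarith [h.L1 (gr g a)]
    rw [abs_mul]
    calc L (gr g a) ^ p * (|m (gr g a)| * |z a|)
        ≤ L (gr g a) ^ p * ((|D| * L (gr g a) ^ q) * |z a|) := by
          gcongr
          exact h1.trans (mul_le_mul_of_nonneg_right (le_abs_self D) (by positivity))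
      _ = |D| * (L (gr g a) ^ (p + q) * |z a|) := by rw [pow_add]; ring
      _ ≤ |D| * Cq := mul_le_mul_of_nonneg_left h2 (abs_nonneg _)
  have hg' := good_of_rap h hz'
  refine Summable.of_norm_bounded ((syn_norm_summable h hg').mul_right
    (∑' a, |z a| * M (gr g a))) (fun k => ?_)
  rw [mult_syn hμ k, norm_smul, norm_mul, norm_pow, norm_norm, sq, mul_assoc]
  have h1 := syn_le h hg k
  gcongr

end gen

section conc

variable {J : Type} {ν α lam Λ M : ℝ} {g : J → ℕ} {F L C ℓ N G : ℕ → ℝ} {B : ℕ → ℕ → ℝ}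
  {e : Ix J → Fam} {c : Ix J → Ix J → Ix J → ℝ}

lemma dE_nonneg (hS : Sq lam Λ M L C ℓ B) (a : Ix J) : 0 ≤ dE ℓ L (Real.exp lam) g a := by
  cases a with
  | inl n => exact hS.ℓ_nonneg n
  | inr j =>
    have := L_one hS (g j)
    simp only [dE]; positivity

lemma dE_le (hS : Sq lam Λ M L C ℓ B) (a : Ix J) :
    dE ℓ L (Real.exp lam) g a ≤ Real.exp lam * L (gr g a) := by
  cases a with
  | inl n =>
    have h1 := ell_le hS n
    have h2 := L_one hS n
    have h3 : 1 ≤ Real.exp lam := Real.one_le_exp (by linarith [lam_one hS])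
    simp only [dE, gr]
    nlinarith
  | inr j => exact le_rfl

lemma dE_rap (hS : Sq lam Λ M L C ℓ B) {z : Ix J → ℝ}
    (hz : ∀ p : ℕ, ∃ Cp, ∀ a, L (gr g a) ^ p * |z a| ≤ Cp) (p : ℕ) :
    ∃ Cp, ∀ a, L (gr g a) ^ p * |dE ℓ L (Real.exp lam) g a * z a| ≤ Cp := by
  obtain ⟨Cq, hCq⟩ := hz (p + 1)
  refine ⟨Real.exp lam * Cq, fun a => ?_⟩
  have h1 := dE_le (g := g) hS a
  have h2 := dE_nonneg (g := g) hS a
  have h3 := L_one hS (gr g a)
  have h4 : (0:ℝ) ≤ L (gr g a) := by linarith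
  rw [abs_mul, abs_of_nonneg h2]
  calc L (gr g a) ^ p * (dE ℓ L (Real.exp lam) g a * |z a|)
      ≤ L (gr g a) ^ p * ((Real.exp lam * L (gr g a)) * |z a|) := by gcongr
    _ = Real.exp lam * (L (gr g a) ^ (p + 1) * |z a|) := by rw [pow_succ]; ring
    _ ≤ Real.exp lam * Cq := mul_le_mul_of_nonneg_left (hCq a) (Real.exp_pos _).le

/-- bounds for the group weights -/
lemma wt_bound (hc : Conc2 ν α lam g F L ℓ N G e) (hS : Sq lam Λ M L C ℓ B) (m p : ℕ) :
    ∃ (D : ℝ) (q : ℕ), ∀ n, |(2 * Real.pi * F n) ^ m * (Real.exp lam * L n) ^ p| ≤ D * L n ^ q := by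
  obtain ⟨D1, hD1, hFL⟩ := hc.F_L
  refine ⟨(2 * Real.pi * D1) ^ m * Real.exp lam ^ p, m + p, fun n => ?_⟩
  have h1 := F_one hc n
  have h2 := L_one hS n
  have h3 := hFL n
  have h4 : (0:ℝ) ≤ F n := by linarith
  have h5 : (0:ℝ) ≤ L n := by linarith
  rw [abs_of_nonneg (by positivity)]
  calc (2 * Real.pi * F n) ^ m * (Real.exp lam * L n) ^ p
      ≤ (2 * Real.pi * (D1 * L n)) ^ m * (Real.exp lam * L n) ^ p := by gcongr
    _ = (2 * Real.pi * D1) ^ m * Real.exp lam ^ p * L n ^ (m + p) := by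
        simp only [mul_pow, pow_add]; ring

/-- comparison of the group weights with powers of the frequencies -/
lemma wt_cmp (hc : Conc2 ν α lam g F L ℓ N G e) (hS : Sq lam Λ M L C ℓ B) (m p : ℕ) :
    ∃ D : ℝ, 0 ≤ D ∧ ∀ a k, e a k ≠ 0 →
      (2 * Real.pi * F (gr g a)) ^ m * (Real.exp lam * L (gr g a)) ^ p ≤
        D * (2 * Real.pi * ‖vec k‖) ^ ((m : ℝ) + 5 / 2 * p) := by
  obtain ⟨D3, hD3, hLF⟩ := hc.L_F
  obtain ⟨D4, hD4, hcmp⟩ := hc.F_cmp
  refine ⟨D4 ^ m * (Real.exp lam * (D3 * D4 ^ (5 / 2 : ℝ))) ^ p, by positivity,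
    fun a k hk => ?_⟩
  have h1 := hLF (gr g a)
  have h2 := hcmp a k hk
  have h3 := (hc.fsupp a k hk).1
  have h4 := F_one hc (gr g a)
  have h5 : (0:ℝ) ≤ F (gr g a) := by linarith
  have h6 : (0:ℝ) ≤ L (gr g a) := by linarith [L_one hS (gr g a)]
  have h7 : (0:ℝ) < 2 * Real.pi * ‖vec k‖ := by
    have := Real.pi_pos
    positivity
  have hL : L (gr g a) ≤ (D3 * D4 ^ (5 / 2 : ℝ)) * (2 * Real.pi * ‖vec k‖) ^ (5 / 2 : ℝ) := by
    calc L (gr g a) ≤ D3 * F (gr g a) ^ (5 / 2 : ℝ) := h1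
      _ ≤ D3 * (D4 * ‖vec k‖) ^ (5 / 2 : ℝ) := by
          gcongr
      _ = (D3 * D4 ^ (5 / 2 : ℝ)) * ‖vec k‖ ^ (5 / 2 : ℝ) := by
          rw [Real.mul_rpow hD4.le (norm_nonneg _)]; ring
      _ ≤ (D3 * D4 ^ (5 / 2 : ℝ)) * (2 * Real.pi * ‖vec k‖) ^ (5 / 2 : ℝ) := by
          gcongr
          have := Real.pi_gt_three
          have h8 := norm_nonneg (vec k)
          nlinarith
  have hF : 2 * Real.pi * F (gr g a) ≤ D4 * (2 * Real.pi * ‖vec k‖) := by
    have := Real.pi_pos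
    calc 2 * Real.pi * F (gr g a) ≤ 2 * Real.pi * (D4 * ‖vec k‖) := by gcongr
      _ = _ := by ring
  have hr : (2 * Real.pi * ‖vec k‖) ^ ((m : ℝ) + 5 / 2 * p) =
      (2 * Real.pi * ‖vec k‖) ^ m * ((2 * Real.pi * ‖vec k‖) ^ (5 / 2 : ℝ)) ^ p := by
    rw [Real.rpow_add h7, Real.rpow_natCast, Real.rpow_mul h7.le, Real.rpow_natCast]
  rw [hr]
  calc (2 * Real.pi * F (gr g a)) ^ m * (Real.exp lam * L (gr g a)) ^ p
      ≤ (D4 * (2 * Real.pi * ‖vec k‖)) ^ m * (Real.exp lam *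
        ((D3 * D4 ^ (5 / 2 : ℝ)) * (2 * Real.pi * ‖vec k‖) ^ (5 / 2 : ℝ))) ^ p := by
        gcongr
    _ = _ := by
        simp only [mul_pow]; ring

theorem diss (hF : S_FLD2) (hc : Conc2 ν α lam g F L ℓ N G e) (hS : Sq lam Λ M L C ℓ B)
    (hK : Ker g Λ M L C B c) (hν : 0 < ν) (hα : 1 ≤ α) :
    Diss3 ν α (fun a => fieldOf (e a)) (dE ℓ L (Real.exp lam) g) := by
  obtain ⟨M', h⟩ := bs_of hc hS hK
  obtain ⟨⟨hip, hcnv, hdir⟩, hcf⟩ := hF
  have hF : S_FLD2 := ⟨⟨hip, hcnv, hdir⟩, hcf⟩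
  have hlam0 := dE_nonneg (g := g) hS
  -- the coefficients
  have hipV : ∀ V, OT V → Rap V → ∀ a, ip (fieldOf V) (fieldOf (e a)) = pair V (e a) :=
    fun V hV rV a => hip _ _ hV rV (h.ot a) (rap_e h a)
  have hdsum : ∀ {z : Ix J → ℝ}, (∀ p : ℕ, ∃ Cp, ∀ a, L (gr g a) ^ p * |z a| ≤ Cp) →
      Summable (fun a => dE ℓ L (Real.exp lam) g a * z a ^ 2) := by
    intro z hz
    have h1 := (sq_of_rap h hz 1).mul_left (Real.exp lam)
    refine Summable.of_nonneg_of_le (fun a => mul_nonneg (hlam0 a) (sq_nonneg _)) (fun a => ?_) h1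
    rw [pow_one, ← mul_assoc]
    exact mul_le_mul_of_nonneg_right (dE_le hS a) (sq_nonneg _)
  refine ⟨?_, hlam0, ?_, ?_, ?_, ?_, ?_⟩
  · intro a
    refine ⟨e a, h.ot a, ⟨F (gr g a), fun k hk => (hc.fsupp a k hk).2⟩, rfl⟩
  · intro i j
    show (i = j → ip (fieldOf (e i)) (fieldOf (e j)) = 1) ∧
      (i ≠ j → ip (fieldOf (e i)) (fieldOf (e j)) = 0)
    rw [hipV _ (h.ot i) (rap_e h i)]
    exact h.orth i j
  · rintro v ⟨V, hV0, hV, rfl⟩ h1 y
    have h2 : ∀ a, pair V (e a) = 0 := by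
      intro a
      rw [← hipV _ hV0 hV]
      exact h1 a
    have h3 := h.compl V hV0 h2
    unfold fieldOf
    simp [h3]
  · -- low
    rintro v ⟨V, hV0, hV, rfl⟩
    simp only [hipV _ hV0 hV]
    have hz := coef_rap h V hV
    have hs := hdsum hz
    refine ⟨hs, ?_⟩
    rw [sob_eq hF α V hV0 hV]
    have h1 := coercive h hν (w := fun k => (2 * Real.pi * ‖vec k‖) ^ (2 * α))
      (wm := fun n => (2 * Real.pi * F n) ^ (2 * α)) (ℓ := ℓ) (Sg := fun n => Real.exp lam * L n)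
      (d := dE ℓ L (Real.exp lam) g) (z := fun a => pair V (e a))
      (fun k => by positivity) (fun n => by
        have := F_one hc n
        positivity) ?_ (fun n => rfl) (fun j => rfl) hc.low hc.lowo
      (∑' a, dE ℓ L (Real.exp lam) g a * pair V (e a) ^ 2) (fun s =>
        hs.sum_le_tsum s (fun a _ => mul_nonneg (hlam0 a) (sq_nonneg _)))
    · rw [← expand h V hV0 hV] at h1
      exact h1
    · intro a k hk
      have h6 := (hc.fsupp a k hk).2
      have := Real.pi_pos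
      apply Real.rpow_le_rpow (by positivity) _ (by linarith)
      gcongr
  · -- up
    obtain ⟨D, hD0, hD⟩ := wt_cmp hc hS 0 1
    refine ⟨D, ?_⟩
    rintro v ⟨V, hV0, hV, rfl⟩
    simp only [hipV _ hV0 hV]
    have hz := coef_rap h V hV
    have hs := hdsum hz
    rw [sob_eq hF _ V hV0 hV]
    obtain ⟨μ, hμ, hμ0⟩ := exists_mu h (fun n => (2 * Real.pi * F n) ^ 0 * (Real.exp lam * L n) ^ 1)
    have hw := wt_bound hc hS 0 1
    have h1 := wpar h hz hw hμ
    rw [← expand h V hV0 hV] at h1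
    have h2 := wsum_a h hz hw
    have h3 : ∑' a, dE ℓ L (Real.exp lam) g a * pair V (e a) ^ 2 ≤
        ∑' a, ((2 * Real.pi * F (gr g a)) ^ 0 * (Real.exp lam * L (gr g a)) ^ 1) *
          pair V (e a) ^ 2 := by
      refine hs.tsum_le_tsum (fun a => ?_) h2
      rw [pow_zero, one_mul, pow_one]
      exact mul_le_mul_of_nonneg_right (dE_le hS a) (sq_nonneg _)
    refine h3.trans ?_
    rw [← h1, ← tsum_mul_left]
    have h4 := wsum_k h hz hw hμ
    rw [← expand h V hV0 hV] at h4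
    refine h4.tsum_le_tsum (fun k => ?_) ((sum_w hV _ (by norm_num)).mul_left D)
    rw [← mul_assoc]
    refine mul_le_mul_of_nonneg_right ?_ (sq_nonneg _)
    by_cases hk : ∃ a, e a k ≠ 0
    · obtain ⟨a, ha⟩ := hk
      rw [hμ a k ha]
      have h5 := hD a k ha
      refine h5.trans (le_of_eq ?_)
      norm_num
    · push Not at hk
      rw [hμ0 k hk]
      positivity
  · -- ord
    intro m
    obtain ⟨D, hD0, hD⟩ := wt_cmp hc hS (2 * m) 2
    refine ⟨D, ?_⟩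
    rintro v ⟨V, hV0, hV, rfl⟩
    simp only [hipV _ hV0 hV]
    have hz := coef_rap h V hV
    have hz' := dE_rap (ℓ := ℓ) hS hz
    set z' : Ix J → ℝ := fun a => dE ℓ L (Real.exp lam) g a * pair V (e a) with hz'def
    have hg' : Summable (fun a => |z' a| * M' (gr g a)) := good_of_rap h hz'
    have hOT : OT (syn e z') := syn_ot h hg'
    have hRap : Rap (syn e z') := rap_syn h hz'
    refine ⟨fieldOf (syn e z'), ⟨_, hOT, hRap, rfl⟩, ?_, ?_⟩
    · intro i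
      rw [hipV _ hOT hRap, pair_syn_e h hg']
    · rw [sob_eq hF _ _ hOT hRap, sob_eq hF _ V hV0 hV]
      obtain ⟨μ, hμ, hμ0⟩ := exists_mu h
        (fun n => (2 * Real.pi * F n) ^ (2 * m) * (Real.exp lam * L n) ^ 0)
      obtain ⟨μ', hμ', hμ0'⟩ := exists_mu h
        (fun n => (2 * Real.pi * F n) ^ (2 * m) * (Real.exp lam * L n) ^ 2)
      have hw := wt_bound hc hS (2 * m) 0
      have hw' := wt_bound hc hS (2 * m) 2
      have h1 := wpar h hz' hw hμ
      have h1' := wpar h hz hw' hμ'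
      rw [← expand h V hV0 hV] at h1'
      have h4 := wsum_k h hz' hw hμ
      have h4' := wsum_k h hz hw' hμ'
      rw [← expand h V hV0 hV] at h4'
      have hA : ∑' k : Z3, (2 * Real.pi * ‖vec k‖) ^ (2 * (m:ℝ)) * ‖syn e z' k‖ ^ 2 ≤
          ∑' k, μ k * ‖syn e z' k‖ ^ 2 := by
        refine (sum_w hRap _ (by positivity)).tsum_le_tsum (fun k => ?_) h4
        by_cases hk : ∃ a, e a k ≠ 0
        · obtain ⟨a, ha⟩ := hk
          rw [hμ a k ha, pow_zero, mul_one]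
          refine mul_le_mul_of_nonneg_right ?_ (sq_nonneg _)
          have h5 : (2 * Real.pi * ‖vec k‖) ^ (2 * (m:ℝ)) = (2 * Real.pi * ‖vec k‖) ^ (2 * m) := by
            rw [← Real.rpow_natCast]; push_cast; rfl
          rw [h5]
          have h6 := (hc.fsupp a k ha).2
          have := Real.pi_pos
          gcongr
        · push Not at hk
          have : syn e z' k = 0 := by
            unfold syn
            simp [hk]
          rw [this]; simp
      have hB : ∑' a, ((2 * Real.pi * F (gr g a)) ^ (2 * m) * (Real.exp lam * L (gr g a)) ^ 0) *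
          z' a ^ 2 ≤ ∑' a, ((2 * Real.pi * F (gr g a)) ^ (2 * m) *
            (Real.exp lam * L (gr g a)) ^ 2) * pair V (e a) ^ 2 := by
        refine (wsum_a h hz' hw).tsum_le_tsum (fun a => ?_) (wsum_a h hz hw')
        rw [hz'def]
        simp only
        rw [pow_zero, mul_one, mul_pow (dE ℓ L (Real.exp lam) g a), ← mul_assoc]
        have h5 := dE_le (g := g) hS a
        have h6 := hlam0 a
        have h7 := F_one hc (gr g a)
        have h8 : (0:ℝ) ≤ F (gr g a) := by linarith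
        gcongr
      have hC : ∑' k, μ' k * ‖V k‖ ^ 2 ≤
          D * ∑' k : Z3, (2 * Real.pi * ‖vec k‖) ^ (2 * ((m:ℝ) + 5 / 2)) * ‖V k‖ ^ 2 := by
        rw [← tsum_mul_left]
        refine h4'.tsum_le_tsum (fun k => ?_) ((sum_w hV _ (by positivity)).mul_left D)
        rw [← mul_assoc]
        refine mul_le_mul_of_nonneg_right ?_ (sq_nonneg _)
        by_cases hk : ∃ a, e a k ≠ 0
        · obtain ⟨a, ha⟩ := hk
          rw [hμ' a k ha]
          refine (hD a k ha).trans (le_of_eq ?_)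
          congr 2
          push_cast
          ring
        · push Not at hk
          rw [hμ0' k hk]
          positivity
      rw [h1] at hA
      rw [h1'] at hC
      exact hA.trans (hB.trans hC)

end conc

end Pool.Agent.Y274.NE
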