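import Pool.Agent.Y275.ND.A5
import Pool.Agent.Y5.E.Stm
import Pool.Agent.Y691.ND.FLD

/-! The expansion of fields with respect to the orthonormal system: basic facts. -/

open Set Filter Topology MeasureTheory

set_option autoImplicit false

namespace Pool.Agent.Y274.NE

open Pool.Agent.Y5 Pool.Agent.Y5.D Pool.Agent.Y5.E
open Pool.Agent.Y275.ND (finite_ball fib syn zl zr zlr zl_supp zr_supp zl_good zr_good)

/-- the properties of the orthonormal system used for expansions -/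
structure Bs {J : Type} (g : J → ℕ) (L M : ℕ → ℝ) (e : Ix J → Fam) : Prop where
  ot : ∀ a, OT (e a)
  fsupp : ∀ a k, e a k ≠ 0 → 1 ≤ ‖vec k‖ ∧ ‖vec k‖ ≤ M (gr g a)
  lowf : ∃ D, 0 < D ∧ ∀ a k, e a k ≠ 0 → L (gr g a) ≤ D * ‖vec k‖ ^ 3
  disj : ∀ a b k, e a k ≠ 0 → e b k ≠ 0 → gr g a = gr g b
  orth : ∀ a b, (a = b → pair (e a) (e b) = 1) ∧ (a ≠ b → pair (e a) (e b) = 0)
  compl : ∀ V, OT V → (∀ a, pair V (e a) = 0) → ∀ k, V k = 0
  l1 : ∀ a, ∑' k, ‖e a k‖ ≤ M (gr g a)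
  fin : ∀ m, {j | g j = m}.Finite
  card : ∀ m, ({j | g j = m}.ncard : ℝ) ≤ M m
  L1 : ∀ n, 1 ≤ L n
  L2 : ∀ n, 2 ^ n ≤ L n
  M1 : ∀ n, 1 ≤ M n
  MB : ∀ n, M n ≤ M 0 * L n ^ 4

variable {J : Type} {g : J → ℕ} {L M : ℕ → ℝ} {e : Ix J → Fam}

lemma supp_finite (h : Bs g L M e) (a : Ix J) : {k | e a k ≠ 0}.Finite :=
  (finite_ball (M (gr g a))).subset (fun k hk => (h.fsupp a k hk).2)

lemma e_summable (h : Bs g L M e) (a : Ix J) : Summable (fun k => ‖e a k‖) := by
  apply summable_of_hasFiniteSupport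
  refine (supp_finite h a).subset ?_
  intro k hk
  simp only [Function.mem_support, ne_eq, norm_eq_zero] at hk
  exact hk

lemma e_le (h : Bs g L M e) (a : Ix J) (k : Z3) : ‖e a k‖ ≤ M (gr g a) :=
  ((e_summable h a).le_tsum k (fun _ _ => norm_nonneg _)).trans (h.l1 a)

lemma M_nonneg (h : Bs g L M e) (a : Ix J) : 0 ≤ M (gr g a) :=
  (norm_nonneg _).trans (e_le h a 0)

lemma supp_le (h : Bs g L M e) (a : Ix J) (k : Z3) (hk : e a k ≠ 0) :
    ‖vec k‖ ≤ M (gr g a) := (h.fsupp a k hk).2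

lemma pow_e_le (h : Bs g L M e) (a : Ix J) (k : Z3) (m : ℕ) :
    ‖vec k‖ ^ m * ‖e a k‖ ≤ M (gr g a) ^ (m + 1) := by
  by_cases hk : e a k = 0
  · rw [hk, norm_zero, mul_zero]
    exact pow_nonneg (M_nonneg h a) _
  · rw [pow_succ]
    exact mul_le_mul (pow_le_pow_left₀ (norm_nonneg _) (supp_le h a k hk) m) (e_le h a k)
      (norm_nonneg _) (pow_nonneg (M_nonneg h a) _)

lemma rap_e (h : Bs g L M e) (a : Ix J) : Rap (e a) := fun m =>
  ⟨M (gr g a) ^ (m + 1), fun k => pow_e_le h a k m⟩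

/-! ### Sums over the groups -/

lemma M_pow_bound (h : Bs g L M e) (n q : ℕ) : M n ^ q ≤ M 0 ^ q * L n ^ (4 * q) := by
  have h1 := h.MB n
  have h2 : M n ^ q ≤ (M 0 * L n ^ 4) ^ q :=
    pow_le_pow_left₀ (by linarith [h.M1 n]) h1 q
  rwa [mul_pow, ← pow_mul] at h2

lemma summable_Linv (h : Bs g L M e) : Summable (fun n => 1 / L n) := by
  refine Summable.of_nonneg_of_le (fun n => by have := h.L1 n; positivity) (fun n => ?_)
    (summable_geometric_two)
  have h1 := h.L2 n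
  rw [div_pow, one_pow]
  exact one_div_le_one_div_of_le (by positivity) h1

/-- the weights `L (gr a) ^ (-5)` are summable -/
lemma summable_L5 (h : Bs g L M e) :
    Summable (fun a : Ix J => 1 / L (gr g a) ^ 5) := by
  have hL := h.L1
  have hM0 := h.M1 0
  have key : ∀ n, 1 / L n ^ 5 ≤ 1 / L n := by
    intro n
    have h1 := hL n
    refine one_div_le_one_div_of_le (by linarith) ?_
    calc L n = L n ^ 1 := (pow_one _).symm
      _ ≤ L n ^ 5 := pow_le_pow_right₀ h1 (by norm_num)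
  have h1 : Summable (fun n => 1 / L n ^ 5) :=
    Summable.of_nonneg_of_le (fun n => by have := hL n; positivity) key (summable_Linv h)
  have h2 : Summable (fun n => M n * (1 / L n ^ 5)) := by
    refine Summable.of_nonneg_of_le (fun n => ?_) (fun n => ?_) ((summable_Linv h).mul_left (M 0))
    · have := hL n
      have := h.M1 n
      positivity
    · have h3 := h.MB n
      have h4 := hL n
      have h5 : (0 : ℝ) < L n := by linarith
      calc M n * (1 / L n ^ 5) ≤ (M 0 * L n ^ 4) * (1 / L n ^ 5) :=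
            mul_le_mul_of_nonneg_right h3 (by positivity)
        _ = M 0 * (1 / L n) := by field_simp
  refine Summable.sum _ ?_ ?_
  · exact h1
  · exact (fib h.fin h.card (fun m => 1 / L m ^ 5) (fun m => by have := hL m; positivity) h2).1

/-- decay gives summability, with a uniform majorant -/
lemma dec_bound (h : Bs g L M e) (q : ℕ) (n : ℕ) (Cp x : ℝ)
    (hx : L n ^ (4 * q + 5) * |x| ≤ Cp) : |x| * M n ^ q ≤ (Cp * M 0 ^ q) * (1 / L n ^ 5) := by
  have h1 := M_pow_bound h n q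
  have h2 := h.L1 n
  have h3 : (0 : ℝ) < L n := by linarith
  have h4 : (0:ℝ) ≤ M 0 ^ q := pow_nonneg (by linarith [h.M1 0]) q
  calc |x| * M n ^ q ≤ |x| * (M 0 ^ q * L n ^ (4 * q)) :=
        mul_le_mul_of_nonneg_left h1 (abs_nonneg _)
    _ = (L n ^ (4 * q + 5) * |x|) * M 0 ^ q * (1 / L n ^ 5) := by
        rw [pow_add]
        field_simp
    _ ≤ (Cp * M 0 ^ q) * (1 / L n ^ 5) :=
        mul_le_mul_of_nonneg_right (mul_le_mul_of_nonneg_right hx h4) (by positivity)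

lemma sum_of_dec (h : Bs g L M e) (q : ℕ) (Cp : ℝ) (z : Ix J → ℝ)
    (hz : ∀ a, L (gr g a) ^ (4 * q + 5) * |z a| ≤ Cp) :
    Summable (fun a => |z a| * M (gr g a) ^ q) ∧
    ∑' a, |z a| * M (gr g a) ^ q ≤ Cp * M 0 ^ q * ∑' a : Ix J, 1 / L (gr g a) ^ 5 := by
  have h1 := (summable_L5 h).mul_left (Cp * M 0 ^ q)
  have h2 : ∀ a, |z a| * M (gr g a) ^ q ≤ (Cp * M 0 ^ q) * (1 / L (gr g a) ^ 5) :=
    fun a => dec_bound h q _ Cp (z a) (hz a)
  have h3 : Summable (fun a => |z a| * M (gr g a) ^ q) :=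
    Summable.of_nonneg_of_le (fun a => mul_nonneg (abs_nonneg _)
      (pow_nonneg (by linarith [h.M1 (gr g a)]) _)) h2 h1
  refine ⟨h3, ?_⟩
  rw [← tsum_mul_left]
  exact h3.tsum_le_tsum h2 h1

/-! ### Synthesis -/

lemma syn_sum (h : Bs g L M e) {z : Ix J → ℝ}
    (hz : Summable (fun a => |z a| * M (gr g a))) :
    Summable (fun p : Ix J × Z3 => ‖z p.1 • e p.1 p.2‖) := by
  rw [summable_prod_of_nonneg (fun _ => norm_nonneg _)]
  have h1 : ∀ a, Summable (fun k => ‖z a • e a k‖) := by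
    intro a
    simp only [norm_smul]
    exact (e_summable h a).mul_left _
  refine ⟨h1, ?_⟩
  refine Summable.of_nonneg_of_le (fun a => tsum_nonneg (fun _ => norm_nonneg _)) (fun a => ?_) hz
  simp only [norm_smul, Real.norm_eq_abs]
  rw [tsum_mul_left]
  exact mul_le_mul_of_nonneg_left (h.l1 a) (abs_nonneg _)

lemma syn_sum' (h : Bs g L M e) {z : Ix J → ℝ}
    (hz : Summable (fun a => |z a| * M (gr g a))) (k : Z3) :
    Summable (fun a => ‖z a • e a k‖) :=
  (syn_sum h hz).prod_symm.prod_factor k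

lemma syn_ot (h : Bs g L M e) {z : Ix J → ℝ}
    (hz : Summable (fun a => |z a| * M (gr g a))) : OT (syn e z) := by
  constructor
  · intro k
    unfold syn
    rw [← tsum_neg]
    apply tsum_congr
    intro a
    rw [(h.ot a).odd k, smul_neg]
  · intro k
    unfold syn
    have h1 : Summable (fun a => z a • e a k) := (syn_sum' h hz k).of_norm
    have h2 := (innerSL ℝ (vec k)).map_tsum h1
    simp only [innerSL_apply_apply] at h2
    rw [h2]
    simp only [inner_smul_right, (h.ot _).tan, mul_zero, tsum_zero]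

/-- the norms of the synthesised family -/
lemma syn_norm (h : Bs g L M e) {z : Ix J → ℝ} (m : ℕ)
    (hz : Summable (fun a => |z a| * M (gr g a)))
    (hz' : Summable (fun a => |z a| * M (gr g a) ^ (m + 1))) (k : Z3) :
    ‖vec k‖ ^ m * ‖syn e z k‖ ≤ ∑' a, |z a| * M (gr g a) ^ (m + 1) := by
  have h1 := syn_sum' h hz k
  have h2 : ‖syn e z k‖ ≤ ∑' a, ‖z a • e a k‖ := norm_tsum_le_tsum_norm h1
  calc ‖vec k‖ ^ m * ‖syn e z k‖ ≤ ‖vec k‖ ^ m * ∑' a, ‖z a • e a k‖ :=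
        mul_le_mul_of_nonneg_left h2 (by positivity)
    _ = ∑' a, ‖vec k‖ ^ m * ‖z a • e a k‖ := by rw [tsum_mul_left]
    _ ≤ ∑' a, |z a| * M (gr g a) ^ (m + 1) := by
        refine (h1.mul_left _).tsum_le_tsum (fun a => ?_) hz'
        rw [norm_smul, Real.norm_eq_abs]
        have := pow_e_le h a k m
        calc ‖vec k‖ ^ m * (|z a| * ‖e a k‖) = |z a| * (‖vec k‖ ^ m * ‖e a k‖) := by ring
          _ ≤ |z a| * M (gr g a) ^ (m + 1) := mul_le_mul_of_nonneg_left this (abs_nonneg _)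

lemma fieldOf_syn (h : Bs g L M e) {z : Ix J → ℝ}
    (hz : Summable (fun a => |z a| * M (gr g a))) (y : E3) :
    fieldOf (syn e z) y = ∑' a, z a • fieldOf (e a) y := by
  unfold fieldOf syn
  have hs : Summable (Function.uncurry fun (a : Ix J) (k : Z3) =>
      Real.sin (2 * Real.pi * inner ℝ (vec k) y) • (z a • e a k)) := by
    refine Summable.of_norm_bounded (syn_sum h hz) (fun p => ?_)
    simp only [Function.uncurry]
    rw [norm_smul, Real.norm_eq_abs]
    have := Real.abs_sin_le_one (2 * Real.pi * inner ℝ (vec p.2) y)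
    nlinarith [norm_nonneg (z p.1 • e p.1 p.2)]
  have h1 := hs.tsum_comm
  have h2 : ∀ k : Z3, Real.sin (2 * Real.pi * inner ℝ (vec k) y) • ∑' a, z a • e a k =
      ∑' a, Real.sin (2 * Real.pi * inner ℝ (vec k) y) • (z a • e a k) := by
    intro k
    exact ((syn_sum' h hz k).of_norm.tsum_const_smul _).symm
  rw [tsum_congr h2, h1]
  apply tsum_congr
  intro a
  rw [← tsum_const_smul'']
  apply tsum_congr
  intro k
  rw [smul_comm]

lemma pair_syn (h : Bs g L M e) {z : Ix J → ℝ}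
    (hz : Summable (fun a => |z a| * M (gr g a))) (W : Fam) (Cw : ℝ) (hW : ∀ k, ‖W k‖ ≤ Cw) :
    pair W (syn e z) = ∑' a, z a * pair W (e a) := by
  unfold pair syn
  have hs : Summable (Function.uncurry fun (a : Ix J) (k : Z3) =>
      z a * inner ℝ (W k) (e a k)) := by
    refine Summable.of_norm_bounded ((syn_sum h hz).mul_left Cw) (fun p => ?_)
    simp only [Function.uncurry]
    rw [norm_mul, norm_smul]
    have h1 : ‖inner ℝ (W p.2) (e p.1 p.2)‖ ≤ Cw * ‖e p.1 p.2‖ :=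
      (norm_inner_le_norm _ _).trans (mul_le_mul_of_nonneg_right (hW _) (norm_nonneg _))
    calc ‖z p.1‖ * ‖inner ℝ (W p.2) (e p.1 p.2)‖ ≤ ‖z p.1‖ * (Cw * ‖e p.1 p.2‖) :=
          mul_le_mul_of_nonneg_left h1 (norm_nonneg _)
      _ = Cw * (‖z p.1‖ * ‖e p.1 p.2‖) := by ring
  have h1 := hs.tsum_comm
  have h2 : ∀ k : Z3, inner ℝ (W k) (∑' a, z a • e a k) =
      ∑' a, z a * inner ℝ (W k) (e a k) := by
    intro k
    have h3 := (innerSL ℝ (W k)).map_tsum (syn_sum' h hz k).of_norm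
    simp only [innerSL_apply_apply] at h3
    rw [h3]
    simp only [inner_smul_right]
  rw [tsum_congr h2, h1]
  apply tsum_congr
  intro a
  rw [tsum_mul_left]

lemma pair_syn_e (h : Bs g L M e) {z : Ix J → ℝ}
    (hz : Summable (fun a => |z a| * M (gr g a))) (b : Ix J) : pair (syn e z) (e b) = z b := by
  rw [Pool.Agent.Y275.ND.pair_comm, pair_syn h hz (e b) (M (gr g b)) (e_le h b)]
  rw [tsum_eq_single b]
  · rw [(h.orth b b).1 rfl, mul_one]
  · intro a hab
    rw [(h.orth b a).2 (Ne.symm hab), mul_zero]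

lemma syn_le (h : Bs g L M e) {z : Ix J → ℝ}
    (hz : Summable (fun a => |z a| * M (gr g a))) (k : Z3) :
    ‖syn e z k‖ ≤ ∑' a, |z a| * M (gr g a) := by
  have h1 := syn_norm h 0 hz (by simpa using hz) k
  simpa using h1

/-- Parseval -/
lemma pair_self (h : Bs g L M e) {z : Ix J → ℝ}
    (hz : Summable (fun a => |z a| * M (gr g a))) : pair (syn e z) (syn e z) = ∑' a, z a ^ 2 := by
  rw [pair_syn h hz (syn e z) _ (syn_le h hz)]
  apply tsum_congr
  intro a
  rw [pair_syn_e h hz, sq]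

/-- the nonlinearity -/
lemma bil_syn (h : Bs g L M e) {z : Ix J → ℝ}
    (hz : Summable (fun a => |z a| * M (gr g a))) (i : Ix J) :
    bl (fun j a b => bil (e a) (e b) (e j)) z z i = bil (syn e z) (syn e z) (e i) := by
  have hzz := syn_sum h hz
  have hsum : Summable (Function.uncurry fun (p : Ix J × Ix J) (q : Z3 × Z3) =>
      (z p.1 * inner ℝ (e p.1 q.1) (vec q.2)) *
        (z p.2 * inner ℝ (e p.2 (q.2 - q.1)) (e i q.2))) := by
    have h1 := (Summable.mul_of_nonneg hzz hzz (fun _ => norm_nonneg _)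
      (fun _ => norm_nonneg _)).mul_left (M (gr g i) ^ 2)
    let φ : (Ix J × Ix J) × (Z3 × Z3) → (Ix J × Z3) × (Ix J × Z3) :=
      fun x => ((x.1.1, x.2.1), (x.1.2, x.2.2 - x.2.1))
    have hφ : Function.Injective φ := by
      rintro ⟨⟨a, b⟩, ⟨p, k⟩⟩ ⟨⟨a', b'⟩, ⟨p', k'⟩⟩ hx
      simp only [φ, Prod.mk.injEq] at hx
      obtain ⟨⟨h1, h2⟩, h3, h4⟩ := hx
      subst h1 h2 h3
      have : k = k' := by
        have h5 := congrArg (· + p) h4
        simpa using h5
      rw [this]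
    have h2 := h1.comp_injective hφ
    refine Summable.of_norm_bounded h2 (fun x => ?_)
    obtain ⟨⟨a, b⟩, ⟨p, k⟩⟩ := x
    simp only [Function.uncurry, Function.comp_apply, φ]
    have h3 : ‖inner ℝ (e a p) (vec k)‖ ≤ ‖e a p‖ * ‖vec k‖ := norm_inner_le_norm _ _
    have h4 : ‖inner ℝ (e b (k - p)) (e i k)‖ ≤ ‖e b (k - p)‖ * ‖e i k‖ := norm_inner_le_norm _ _
    have h5 := pow_e_le h i k 1
    rw [pow_one] at h5
    rw [norm_mul, norm_mul, norm_mul, norm_smul, norm_smul]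
    calc ‖z a‖ * ‖inner ℝ (e a p) (vec k)‖ * (‖z b‖ * ‖inner ℝ (e b (k - p)) (e i k)‖)
        ≤ ‖z a‖ * (‖e a p‖ * ‖vec k‖) * (‖z b‖ * (‖e b (k - p)‖ * ‖e i k‖)) := by
          gcongr
      _ = (‖vec k‖ * ‖e i k‖) * (‖z a‖ * ‖e a p‖ * (‖z b‖ * ‖e b (k - p)‖)) := by ring
      _ ≤ M (gr g i) ^ 2 * (‖z a‖ * ‖e a p‖ * (‖z b‖ * ‖e b (k - p)‖)) :=
          mul_le_mul_of_nonneg_right h5 (by positivity)
  unfold bl bil
  have hA : ∀ k p : Z3, inner ℝ (syn e z p) (vec k) = ∑' a, z a * inner ℝ (e a p) (vec k) := by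
    intro k p
    unfold syn
    have h3 := (innerSL ℝ (vec k)).map_tsum (syn_sum' h hz p).of_norm
    simp only [innerSL_apply_apply] at h3
    rw [real_inner_comm, h3]
    apply tsum_congr
    intro a
    rw [inner_smul_right, real_inner_comm]
  have hB : ∀ k p : Z3, inner ℝ (syn e z p) (e i k) = ∑' a, z a * inner ℝ (e a p) (e i k) := by
    intro k p
    unfold syn
    have h3 := (innerSL ℝ (e i k)).map_tsum (syn_sum' h hz p).of_norm
    simp only [innerSL_apply_apply] at h3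
    rw [real_inner_comm, h3]
    apply tsum_congr
    intro a
    rw [inner_smul_right, real_inner_comm]
  have hsA : ∀ k p : Z3, Summable (fun a => ‖z a * inner ℝ (e a p) (vec k)‖) := by
    intro k p
    refine Summable.of_nonneg_of_le (fun _ => norm_nonneg _) (fun a => ?_)
      ((syn_sum' h hz p).mul_right ‖vec k‖)
    rw [norm_mul, norm_smul, mul_assoc]
    exact mul_le_mul_of_nonneg_left (norm_inner_le_norm _ _) (norm_nonneg _)
  have hsB : ∀ k p : Z3, Summable (fun a => ‖z a * inner ℝ (e a p) (e i k)‖) := by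
    intro k p
    refine Summable.of_nonneg_of_le (fun _ => norm_nonneg _) (fun a => ?_)
      ((syn_sum' h hz p).mul_right ‖e i k‖)
    rw [norm_mul, norm_smul, mul_assoc]
    exact mul_le_mul_of_nonneg_left (norm_inner_le_norm _ _) (norm_nonneg _)
  have h1 : ∀ q : Z3 × Z3, inner ℝ (syn e z q.1) (vec q.2) *
      inner ℝ (syn e z (q.2 - q.1)) (e i q.2) = ∑' p : Ix J × Ix J,
      (z p.1 * inner ℝ (e p.1 q.1) (vec q.2)) *
        (z p.2 * inner ℝ (e p.2 (q.2 - q.1)) (e i q.2)) := by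
    intro q
    rw [hA, hB]
    exact tsum_mul_tsum_of_summable_norm (hsA q.2 q.1) (hsB q.2 (q.2 - q.1))
  rw [tsum_congr h1, hsum.tsum_comm, ← tsum_mul_left]
  apply tsum_congr
  intro p
  have h2 : ∑' q : Z3 × Z3, z p.1 * inner ℝ (e p.1 q.1) (vec q.2) *
      (z p.2 * inner ℝ (e p.2 (q.2 - q.1)) (e i q.2)) =
      (z p.1 * z p.2) * ∑' q : Z3 × Z3, inner ℝ (e p.1 q.1) (vec q.2) *
      inner ℝ (e p.2 (q.2 - q.1)) (e i q.2) := by
    rw [← tsum_mul_left]
    apply tsum_congr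
    intro q
    ring
  rw [h2]
  ring

/-! ### Analysis -/

lemma coef_dec (h : Bs g L M e) :
    ∃ D, 0 < D ∧ ∀ (p : ℕ) (V : Fam) (μ : ℝ), (∀ k, ‖vec k‖ ^ (3 * (p + 4)) * ‖V k‖ ≤ μ) →
      ∀ a, L (gr g a) ^ p * |pair V (e a)| ≤ D ^ (p + 4) * μ * M 0 := by
  obtain ⟨D, hD, hlow⟩ := h.lowf
  refine ⟨D, hD, fun p V μ hV a => ?_⟩
  have hL := h.L1 (gr g a)
  have hL0 : 0 < L (gr g a) := by linarith
  have hμ : 0 ≤ μ := (mul_nonneg (pow_nonneg (norm_nonneg _) _) (norm_nonneg _)).trans (hV 0)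
  have h1 : ∀ k, L (gr g a) ^ (p + 4) * ‖inner ℝ (V k) (e a k)‖ ≤ D ^ (p + 4) * μ * ‖e a k‖ := by
    intro k
    by_cases hk : e a k = 0
    · rw [hk]; simp
    · have h2 := hlow a k hk
      have h3 : L (gr g a) ^ (p + 4) ≤ D ^ (p + 4) * ‖vec k‖ ^ (3 * (p + 4)) := by
        calc L (gr g a) ^ (p + 4) ≤ (D * ‖vec k‖ ^ 3) ^ (p + 4) :=
              pow_le_pow_left₀ hL0.le h2 _
          _ = D ^ (p + 4) * ‖vec k‖ ^ (3 * (p + 4)) := by rw [mul_pow, ← pow_mul]
      have h4 : ‖inner ℝ (V k) (e a k)‖ ≤ ‖V k‖ * ‖e a k‖ := norm_inner_le_norm _ _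
      calc L (gr g a) ^ (p + 4) * ‖inner ℝ (V k) (e a k)‖
          ≤ (D ^ (p + 4) * ‖vec k‖ ^ (3 * (p + 4))) * (‖V k‖ * ‖e a k‖) :=
            mul_le_mul h3 h4 (norm_nonneg _) (by positivity)
        _ = D ^ (p + 4) * (‖vec k‖ ^ (3 * (p + 4)) * ‖V k‖) * ‖e a k‖ := by ring
        _ ≤ D ^ (p + 4) * μ * ‖e a k‖ := by
            gcongr
            exact hV k
  have hsum : Summable (fun k => ‖inner ℝ (V k) (e a k)‖) := by
    refine Summable.of_nonneg_of_le (fun _ => norm_nonneg _) (fun k => ?_)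
      ((e_summable h a).mul_left (D ^ (p + 4) * μ))
    have h2 := h1 k
    have h3 : 1 ≤ L (gr g a) ^ (p + 4) := one_le_pow₀ hL
    nlinarith [norm_nonneg (inner ℝ (V k) (e a k))]
  have h5 : |pair V (e a)| ≤ ∑' k, ‖inner ℝ (V k) (e a k)‖ := by
    unfold pair
    exact norm_tsum_le_tsum_norm hsum
  have h6 : L (gr g a) ^ (p + 4) * |pair V (e a)| ≤ D ^ (p + 4) * μ * M (gr g a) := by
    calc L (gr g a) ^ (p + 4) * |pair V (e a)|
        ≤ L (gr g a) ^ (p + 4) * ∑' k, ‖inner ℝ (V k) (e a k)‖ :=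
          mul_le_mul_of_nonneg_left h5 (by positivity)
      _ = ∑' k, L (gr g a) ^ (p + 4) * ‖inner ℝ (V k) (e a k)‖ := by rw [tsum_mul_left]
      _ ≤ ∑' k, D ^ (p + 4) * μ * ‖e a k‖ :=
          (hsum.mul_left _).tsum_le_tsum h1 ((e_summable h a).mul_left _)
      _ = D ^ (p + 4) * μ * ∑' k, ‖e a k‖ := by rw [tsum_mul_left]
      _ ≤ D ^ (p + 4) * μ * M (gr g a) :=
          mul_le_mul_of_nonneg_left (h.l1 a) (by positivity)
  have h7 := h.MB (gr g a)
  have h8 : L (gr g a) ^ 4 * (L (gr g a) ^ p * |pair V (e a)|) ≤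
      L (gr g a) ^ 4 * (D ^ (p + 4) * μ * M 0) := by
    calc L (gr g a) ^ 4 * (L (gr g a) ^ p * |pair V (e a)|)
        = L (gr g a) ^ (p + 4) * |pair V (e a)| := by rw [pow_add]; ring
      _ ≤ D ^ (p + 4) * μ * M (gr g a) := h6
      _ ≤ D ^ (p + 4) * μ * (M 0 * L (gr g a) ^ 4) :=
          mul_le_mul_of_nonneg_left h7 (by positivity)
      _ = L (gr g a) ^ 4 * (D ^ (p + 4) * μ * M 0) := by ring
  exact le_of_mul_le_mul_left h8 (by positivity)

/-- all the weighted coefficients of a rapidly decreasing family are bounded -/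
lemma coef_rap (h : Bs g L M e) (V : Fam) (hV : Rap V) (p : ℕ) :
    ∃ Cp, ∀ a, L (gr g a) ^ p * |pair V (e a)| ≤ Cp := by
  obtain ⟨D, hD, h1⟩ := coef_dec h
  obtain ⟨μ, hμ⟩ := hV (3 * (p + 4))
  exact ⟨_, h1 p V μ hμ⟩

lemma good_of_rap (h : Bs g L M e) {z : Ix J → ℝ}
    (hz : ∀ p : ℕ, ∃ Cp, ∀ a, L (gr g a) ^ p * |z a| ≤ Cp) :
    Summable (fun a => |z a| * M (gr g a)) := by
  obtain ⟨Cp, hCp⟩ := hz (4 * 1 + 5)
  simpa using (sum_of_dec h 1 Cp z hCp).1

lemma rap_syn (h : Bs g L M e) {z : Ix J → ℝ}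
    (hz : ∀ p : ℕ, ∃ Cp, ∀ a, L (gr g a) ^ p * |z a| ≤ Cp) : Rap (syn e z) := by
  intro m
  obtain ⟨Cp, hCp⟩ := hz (4 * (m + 1) + 5)
  exact ⟨_, fun k => syn_norm h m (good_of_rap h hz) (sum_of_dec h (m + 1) Cp z hCp).1 k⟩

lemma sq_of_rap (h : Bs g L M e) {z : Ix J → ℝ}
    (hz : ∀ p : ℕ, ∃ Cp, ∀ a, L (gr g a) ^ p * |z a| ≤ Cp) (p : ℕ) :
    Summable (fun a => L (gr g a) ^ p * z a ^ 2) := by
  obtain ⟨C1, hC1⟩ := hz (p + 5)
  obtain ⟨C2, hC2⟩ := hz 0
  refine Summable.of_nonneg_of_le (fun a => by have := h.L1 (gr g a); positivity) (fun a => ?_)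
    ((summable_L5 h).mul_left (C1 * C2))
  have h1 := hC1 a
  have h2 := hC2 a
  rw [pow_zero, one_mul] at h2
  have h3 := h.L1 (gr g a)
  have h4 : 0 < L (gr g a) := by linarith
  have h5 : 0 ≤ C1 := le_trans (by positivity) h1
  calc L (gr g a) ^ p * z a ^ 2 = (L (gr g a) ^ (p + 5) * |z a|) * |z a| * (1 / L (gr g a) ^ 5) := by
        rw [← sq_abs (z a), pow_add]
        field_simp
    _ ≤ C1 * C2 * (1 / L (gr g a) ^ 5) := by
        apply mul_le_mul_of_nonneg_right _ (by positivity)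
        exact mul_le_mul h1 h2 (abs_nonneg _) h5

lemma expand (h : Bs g L M e)
    (V : Fam) (hV0 : OT V) (hV : Rap V) : V = syn e (fun a => pair V (e a)) := by
  set z : Ix J → ℝ := fun a => pair V (e a) with hz
  have hg : Summable (fun a => |z a| * M (gr g a)) := good_of_rap h (coef_rap h V hV)
  have hot := syn_ot h hg
  have h1 : OT (fun k => V k - syn e z k) := by
    constructor
    · intro k
      show V (-k) - syn e z (-k) = -(V k - syn e z k)
      rw [hV0.odd, hot.odd]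
      abel
    · intro k
      rw [inner_sub_right, hV0.tan, hot.tan, sub_zero]
  have hfs : ∀ (W : Fam) (b : Ix J), Summable (fun k => inner ℝ (W k) (e b k)) := by
    intro W b
    apply summable_of_hasFiniteSupport
    refine (supp_finite h b).subset ?_
    intro k hk
    simp only [Function.mem_support, ne_eq] at hk
    intro h0
    apply hk
    rw [h0, inner_zero_right]
  have h2 : ∀ b, pair (fun k => V k - syn e z k) (e b) = 0 := by
    intro b
    have h3 := pair_syn_e h hg b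
    unfold pair at h3 ⊢
    simp only [inner_sub_left]
    rw [(hfs V b).tsum_sub (hfs (syn e z) b), h3]
    simp [hz, pair]
  have h4 := h.compl _ h1 h2
  funext k
  have := h4 k
  exact sub_eq_zero.1 this

end Pool.Agent.Y274.NE
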