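import Pool.Agent.Y274.NE.B1

/-! Coercivity and Parseval's identity with weights. -/

open Set Filter Topology MeasureTheory

set_option autoImplicit false

namespace Pool.Agent.Y274.NE

open Pool.Agent.Y5 Pool.Agent.Y5.D Pool.Agent.Y5.E
open Pool.Agent.Y275.ND (finite_ball fib syn zl zr zlr zl_supp zr_supp zl_good zr_good)

variable {J : Type} {g : J → ℕ} {L M : ℕ → ℝ} {e : Ix J → Fam}

lemma syn_norm_summable (h : Bs g L M e) {z : Ix J → ℝ}
    (hz : Summable (fun a => |z a| * M (gr g a))) : Summable (fun k => ‖syn e z k‖) := by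
  refine Summable.of_nonneg_of_le (fun _ => norm_nonneg _) (fun k => ?_) (syn_sum h hz).prod_symm.prod
  exact norm_tsum_le_tsum_norm (syn_sum' h hz k)

lemma syn_sq_summable (h : Bs g L M e) {z : Ix J → ℝ}
    (hz : Summable (fun a => |z a| * M (gr g a))) : Summable (fun k => ‖syn e z k‖ ^ 2) := by
  refine Summable.of_nonneg_of_le (fun _ => by positivity) (fun k => ?_)
    ((syn_norm_summable h hz).mul_left (∑' a, |z a| * M (gr g a)))
  have := syn_le h hz k
  rw [sq]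
  exact mul_le_mul_of_nonneg_right this (norm_nonneg _)

lemma group_split (h : Bs g L M e) {z : Ix J → ℝ}
    (a₀ : Ix J) (k : Z3) (hk : e a₀ k ≠ 0) :
    syn e z k = z (Sum.inl (gr g a₀)) • e (Sum.inl (gr g a₀)) k + syn e (zr g z (gr g a₀)) k := by
  have h1 : ∀ a, z a • e a k = zl z (gr g a₀) a • e a k + zr g z (gr g a₀) a • e a k := by
    intro a
    by_cases ha : e a k = 0
    · rw [ha]; simp
    · have h2 := h.disj a a₀ k ha hk
      rw [← add_smul, ← h2, zlr]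
  have h2 : syn e z k = syn e (zl z (gr g a₀)) k + syn e (zr g z (gr g a₀)) k := by
    unfold syn
    rw [tsum_congr h1]
    exact ((syn_sum' h (zl_good z _) k).of_norm).tsum_add
      ((syn_sum' h (zr_good h.fin z _) k).of_norm)
  rw [h2]
  congr 1
  unfold syn
  rw [tsum_eq_single (Sum.inl (gr g a₀))]
  · simp [zl]
  · intro a ha
    have : zl z (gr g a₀) a = 0 := by
      by_contra hc
      exact ha (zl_supp z _ a hc)
    rw [this, zero_smul]

/-- a frequency of the part `zr` belongs to the group `m` -/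
lemma zr_group (z : Ix J → ℝ) (m : ℕ) (k : Z3) (h0 : syn e (zr g z m) k ≠ 0) :
    ∃ a, gr g a = m ∧ e a k ≠ 0 := by
  have h1 : ∃ a, zr g z m a • e a k ≠ 0 := by
    by_contra hc
    push Not at hc
    apply h0
    unfold syn
    simp [hc]
  obtain ⟨a, ha⟩ := h1
  obtain ⟨ha1, ha2⟩ := smul_ne_zero_iff.1 ha
  obtain ⟨j, rfl, hj⟩ := zr_supp g z m a ha1
  exact ⟨Sum.inr j, hj, ha2⟩

lemma zr_energy (h : Bs g L M e) (z : Ix J → ℝ)
    (m : ℕ) : ∑' k, ‖syn e (zr g z m) k‖ ^ 2 = ∑ j ∈ (h.fin m).toFinset, z (Sum.inr j) ^ 2 := by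
  have h1 := pair_self h (zr_good h.fin z m)
  unfold pair at h1
  simp only [real_inner_self_eq_norm_sq] at h1
  rw [h1]
  rw [tsum_eq_sum (s := (h.fin m).toFinset.map ⟨Sum.inr, Sum.inr_injective⟩)]
  · rw [Finset.sum_map]
    refine Finset.sum_congr rfl (fun j hj => ?_)
    simp only [Function.Embedding.coeFn_mk]
    have : g j = m := by simpa using hj
    simp [zr, this]
  · intro a ha
    have : zr g z m a = 0 := by
      by_contra hc
      obtain ⟨j, rfl, hj⟩ := zr_supp g z m a hc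
      apply ha
      simp [hj]
    rw [this]; simp

theorem coercive (h : Bs g L M e) {ν : ℝ} (hν : 0 < ν) {w : Z3 → ℝ} {wm ℓ Sg : ℕ → ℝ}
    {d : Ix J → ℝ} (hw0 : ∀ k, 0 ≤ w k) (hwm0 : ∀ m, 0 ≤ wm m)
    (hwm : ∀ a k, e a k ≠ 0 → w k ≤ wm (gr g a))
    (hdl : ∀ n, d (Sum.inl n) = ℓ n) (hdr : ∀ j, d (Sum.inr j) = Sg (g j))
    (hl : ∀ n, 2 * (ν * ∑' k, w k * ‖e (Sum.inl n) k‖ ^ 2) ≤ ℓ n)
    (hr : ∀ n, 2 * (ν * wm n) ≤ Sg n)
    {z : Ix J → ℝ} (Mb : ℝ)
    (hb : ∀ s : Finset (Ix J), ∑ a ∈ s, d a * z a ^ 2 ≤ Mb) :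
    ν * ∑' k, w k * ‖syn e z k‖ ^ 2 ≤ Mb := by
  classical
  -- the energies of the groups
  set Am : ℕ → Z3 → ℝ := fun m k => 2 * (z (Sum.inl m) ^ 2 * (w k * ‖e (Sum.inl m) k‖ ^ 2)) +
    2 * (wm m * ‖syn e (zr g z m) k‖ ^ 2) with hAm
  have hAm0 : ∀ m k, 0 ≤ Am m k := fun m k => by
    have := hw0 k
    have := hwm0 m
    simp only [hAm]; positivity
  have hs1 : ∀ m, Summable (fun k => w k * ‖e (Sum.inl m) k‖ ^ 2) := by
    intro m
    apply summable_of_hasFiniteSupport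
    refine (supp_finite h (Sum.inl m)).subset ?_
    intro k hk
    simp only [Function.mem_support, ne_eq] at hk
    intro h0
    apply hk
    rw [h0]; simp
  have hAs : ∀ m, Summable (Am m) := fun m =>
    (((hs1 m).mul_left _).mul_left 2).add
      (((syn_sq_summable h (zr_good h.fin z m)).mul_left _).mul_left 2)
  have hAt : ∀ m, ν * ∑' k, Am m k ≤
      ℓ m * z (Sum.inl m) ^ 2 + ∑ j ∈ (h.fin m).toFinset, Sg m * z (Sum.inr j) ^ 2 := by
    intro m
    simp only [hAm]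
    rw [((((hs1 m).mul_left _).mul_left 2)).tsum_add
      (((syn_sq_summable h (zr_good h.fin z m)).mul_left _).mul_left 2)]
    rw [tsum_mul_left, tsum_mul_left, tsum_mul_left, tsum_mul_left, zr_energy h, mul_add,
      ← Finset.mul_sum]
    have h1 := hl m
    have h2 := hr m
    have h3 : 0 ≤ ∑ j ∈ (h.fin m).toFinset, z (Sum.inr j) ^ 2 :=
      Finset.sum_nonneg (fun _ _ => sq_nonneg _)
    apply add_le_add
    · calc ν * (2 * (z (Sum.inl m) ^ 2 * ∑' k, w k * ‖e (Sum.inl m) k‖ ^ 2))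
          = (2 * (ν * ∑' k, w k * ‖e (Sum.inl m) k‖ ^ 2)) *
            z (Sum.inl m) ^ 2 := by ring
        _ ≤ ℓ m * z (Sum.inl m) ^ 2 := mul_le_mul_of_nonneg_right h1 (sq_nonneg _)
    · calc ν * (2 * (wm m * ∑ j ∈ (h.fin m).toFinset, z (Sum.inr j) ^ 2))
          = (2 * (ν * wm m)) *
            ∑ j ∈ (h.fin m).toFinset, z (Sum.inr j) ^ 2 := by ring
        _ ≤ Sg m * ∑ j ∈ (h.fin m).toFinset, z (Sum.inr j) ^ 2 :=
            mul_le_mul_of_nonneg_right h2 h3
  -- the group of a frequency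
  have hmk : ∀ k : Z3, ∃ m, w k * ‖syn e z k‖ ^ 2 ≤ Am m k := by
    intro k
    by_cases hk : ∃ a, e a k ≠ 0
    · obtain ⟨a₀, ha₀⟩ := hk
      refine ⟨gr g a₀, ?_⟩
      have h1 := group_split h (z := z) a₀ k ha₀
      have h2 : w k * ‖syn e (zr g z (gr g a₀)) k‖ ^ 2 ≤
          wm (gr g a₀) * ‖syn e (zr g z (gr g a₀)) k‖ ^ 2 :=
        mul_le_mul_of_nonneg_right (hwm a₀ k ha₀) (by positivity)
      have h3 : ‖syn e z k‖ ^ 2 ≤ 2 * ‖z (Sum.inl (gr g a₀)) • e (Sum.inl (gr g a₀)) k‖ ^ 2 +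
          2 * ‖syn e (zr g z (gr g a₀)) k‖ ^ 2 := by
        rw [h1]
        have h4 := norm_add_le (z (Sum.inl (gr g a₀)) • e (Sum.inl (gr g a₀)) k)
          (syn e (zr g z (gr g a₀)) k)
        have h5 := pow_le_pow_left₀ (norm_nonneg _) h4 2
        nlinarith [sq_nonneg (‖z (Sum.inl (gr g a₀)) • e (Sum.inl (gr g a₀)) k‖ -
          ‖syn e (zr g z (gr g a₀)) k‖)]
      have h6 : ‖z (Sum.inl (gr g a₀)) • e (Sum.inl (gr g a₀)) k‖ ^ 2 =
          z (Sum.inl (gr g a₀)) ^ 2 * ‖e (Sum.inl (gr g a₀)) k‖ ^ 2 := by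
        rw [norm_smul, mul_pow, Real.norm_eq_abs, sq_abs]
      rw [h6] at h3
      simp only [hAm]
      have h7 := mul_le_mul_of_nonneg_left h3 (hw0 k)
      calc w k * ‖syn e z k‖ ^ 2
          ≤ w k * (2 * (z (Sum.inl (gr g a₀)) ^ 2 * ‖e (Sum.inl (gr g a₀)) k‖ ^ 2) +
            2 * ‖syn e (zr g z (gr g a₀)) k‖ ^ 2) := h7
        _ = 2 * (z (Sum.inl (gr g a₀)) ^ 2 * (w k * ‖e (Sum.inl (gr g a₀)) k‖ ^ 2)) +
            2 * (w k * ‖syn e (zr g z (gr g a₀)) k‖ ^ 2) := by ring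
        _ ≤ _ := by linarith
    · push Not at hk
      refine ⟨0, ?_⟩
      have : syn e z k = 0 := by
        unfold syn
        simp [hk]
      rw [this]
      simpa using hAm0 0 k
  choose mk hmk using hmk
  have key : ∀ K : Finset Z3, ∑ k ∈ K, w k * ‖syn e z k‖ ^ 2 ≤ Mb / ν := by
    intro K
    rw [le_div_iff₀ hν]
    set I := K.image mk with hI
    have h1 : ∑ k ∈ K, w k * ‖syn e z k‖ ^ 2 ≤ ∑ m ∈ I, ∑' k, Am m k := by
      calc ∑ k ∈ K, w k * ‖syn e z k‖ ^ 2 ≤ ∑ k ∈ K, Am (mk k) k :=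
            Finset.sum_le_sum (fun k _ => hmk k)
        _ ≤ ∑ k ∈ K, ∑ m ∈ I, Am m k := by
            refine Finset.sum_le_sum (fun k hk => ?_)
            exact Finset.single_le_sum (f := fun m => Am m k) (fun m _ => hAm0 m k)
              (Finset.mem_image_of_mem mk hk)
        _ = ∑ m ∈ I, ∑ k ∈ K, Am m k := Finset.sum_comm
        _ ≤ ∑ m ∈ I, ∑' k, Am m k :=
            Finset.sum_le_sum (fun m _ => (hAs m).sum_le_tsum K (fun k _ => hAm0 m k))
    have h2 : (∑ m ∈ I, ∑' k, Am m k) * ν ≤ ∑ m ∈ I, (ℓ m * z (Sum.inl m) ^ 2 +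
        ∑ j ∈ (h.fin m).toFinset, Sg m * z (Sum.inr j) ^ 2) := by
      rw [Finset.sum_mul]
      refine Finset.sum_le_sum (fun m _ => ?_)
      rw [mul_comm]
      exact hAt m
    have h3 : ∑ m ∈ I, (ℓ m * z (Sum.inl m) ^ 2 +
        ∑ j ∈ (h.fin m).toFinset, Sg m * z (Sum.inr j) ^ 2) =
        ∑ a ∈ (I.map ⟨Sum.inl, Sum.inl_injective⟩ ∪
          (I.biUnion (fun m => (h.fin m).toFinset)).map ⟨Sum.inr, Sum.inr_injective⟩ :
          Finset (Ix J)), d a * z a ^ 2 := by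
      rw [Finset.sum_union]
      · rw [Finset.sum_map, Finset.sum_map, Finset.sum_add_distrib, Finset.sum_biUnion]
        · congr 1
          · refine Finset.sum_congr rfl (fun m _ => ?_)
            simp only [Function.Embedding.coeFn_mk, hdl]
          · refine Finset.sum_congr rfl (fun m _ => Finset.sum_congr rfl (fun j hj => ?_))
            have : g j = m := by simpa using hj
            simp [hdr, this]
        · intro m _ m' _ hmm
          rw [Function.onFun, Finset.disjoint_left]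
          intro j hj hj'
          have h4 : g j = m := by simpa using hj
          have h5 : g j = m' := by simpa using hj'
          exact hmm (h4.symm.trans h5)
      · rw [Finset.disjoint_left]
        intro a ha ha'
        simp only [Finset.mem_map, Function.Embedding.coeFn_mk] at ha ha'
        obtain ⟨m, _, rfl⟩ := ha
        obtain ⟨j, _, hj⟩ := ha'
        exact Sum.inr_ne_inl hj
    calc (∑ k ∈ K, w k * ‖syn e z k‖ ^ 2) * ν ≤ (∑ m ∈ I, ∑' k, Am m k) * ν :=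
          mul_le_mul_of_nonneg_right h1 hν.le
      _ ≤ _ := h2
      _ = _ := h3
      _ ≤ Mb := hb _
  have hsum : Summable (fun k => w k * ‖syn e z k‖ ^ 2) :=
    summable_of_sum_le (fun k => by have := hw0 k; positivity) key
  have h1 := hsum.tsum_le_of_sum_le key
  rw [le_div_iff₀ hν] at h1
  rw [mul_comm]
  exact h1

/-! ### Multipliers that depend only on the group -/

lemma exists_mu (h : Bs g L M e) (m : ℕ → ℝ) : ∃ μ : Z3 → ℝ,
    (∀ a k, e a k ≠ 0 → μ k = m (gr g a)) ∧ ∀ k, (∀ a, e a k = 0) → μ k = 0 := by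
  classical
  refine ⟨fun k => if hk : ∃ a, e a k ≠ 0 then m (gr g hk.choose) else 0, ?_, ?_⟩
  · intro a k hk
    have h1 : ∃ a, e a k ≠ 0 := ⟨a, hk⟩
    simp only [h1, dif_pos]
    rw [h.disj _ _ k h1.choose_spec hk]
  · intro k hk
    have h1 : ¬ ∃ a, e a k ≠ 0 := by push Not; exact hk
    simp only [h1, dif_neg, not_false_eq_true]

lemma mult_syn {z : Ix J → ℝ} {m : ℕ → ℝ} {μ : Z3 → ℝ}
    (hμ : ∀ a k, e a k ≠ 0 → μ k = m (gr g a)) (k : Z3) :
    syn e (fun a => m (gr g a) * z a) k = μ k • syn e z k := by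
  unfold syn
  rw [← tsum_const_smul'']
  apply tsum_congr
  intro a
  by_cases hk : e a k = 0
  · rw [hk]; simp
  · rw [hμ a k hk, mul_smul]

/-- Parseval's identity with weights depending only on the group -/
lemma wpar (h : Bs g L M e) {z : Ix J → ℝ}
    (hz : ∀ p : ℕ, ∃ Cp, ∀ a, L (gr g a) ^ p * |z a| ≤ Cp) {m : ℕ → ℝ}
    (hm : ∃ (D : ℝ) (p : ℕ), ∀ n, |m n| ≤ D * L n ^ p) {μ : Z3 → ℝ}
    (hμ : ∀ a k, e a k ≠ 0 → μ k = m (gr g a)) :
    ∑' k, μ k * ‖syn e z k‖ ^ 2 = ∑' a, m (gr g a) * z a ^ 2 := by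
  have hg := good_of_rap h hz
  have hz' : ∀ p : ℕ, ∃ Cp, ∀ a, L (gr g a) ^ p * |m (gr g a) * z a| ≤ Cp := by
    intro p
    obtain ⟨D, q, hD⟩ := hm
    obtain ⟨Cq, hCq⟩ := hz (p + q)
    refine ⟨|D| * Cq, fun a => ?_⟩
    have h1 := hD (gr g a)
    have h2 := hCq a
    have h3 : (0:ℝ) ≤ L (gr g a) := by linarith [h.L1 (gr g a)]
    rw [abs_mul]
    calc L (gr g a) ^ p * (|m (gr g a)| * |z a|)
        ≤ L (gr g a) ^ p * ((|D| * L (gr g a) ^ q) * |z a|) := by
          gcongr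
          exact h1.trans (mul_le_mul_of_nonneg_right (le_abs_self D) (by positivity))
      _ = |D| * (L (gr g a) ^ (p + q) * |z a|) := by rw [pow_add]; ring
      _ ≤ |D| * Cq := mul_le_mul_of_nonneg_left h2 (abs_nonneg _)
  have hg' := good_of_rap h hz'
  have h1 := pair_syn h hg' (syn e z) _ (syn_le h hg)
  have h2 : pair (syn e z) (syn e fun a => m (gr g a) * z a) = ∑' k, μ k * ‖syn e z k‖ ^ 2 := by
    unfold pair
    apply tsum_congr
    intro k
    rw [mult_syn hμ k, inner_smul_right, real_inner_self_eq_norm_sq]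
  rw [← h2, h1]
  apply tsum_congr
  intro a
  rw [pair_syn_e h hg]
  ring

end Pool.Agent.Y274.NE
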