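import Pool.Agent.Y274.NE.B3

/-! The lower bound of the velocity. -/

open Set Filter Topology MeasureTheory

set_option autoImplicit false

namespace Pool.Agent.Y274.NE

open Pool.Agent.Y5 Pool.Agent.Y5.D Pool.Agent.Y5.E
open Pool.Agent.Y275.ND (finite_ball fib syn zl zr zlr zl_supp zr_supp zl_good zr_good)

section gen

variable {J : Type} {g : J → ℕ} {L M : ℕ → ℝ} {e : Ix J → Fam}

lemma wz_eq (h : Bs g L M e) (z : Ix J → ℝ → ℝ) (m : ℕ) (t : ℝ) :
    wz g z m t = √(∑ j ∈ (h.fin m).toFinset, z (Sum.inr j) t ^ 2) := by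
  unfold wz
  congr 1
  rw [tsum_eq_sum (s := (h.fin m).toFinset)]
  · refine Finset.sum_congr rfl (fun j hj => ?_)
    have : g j = m := by simpa using hj
    rw [if_pos this]
  · intro j hj
    have : g j ≠ m := by simpa using hj
    rw [if_neg this]

lemma wz_sum (h : Bs g L M e) (z : Ix J → ℝ → ℝ) (t : ℝ) (hs : Summable (fun a => z a t ^ 2)) :
    Summable (fun m => wz g z m t ^ 2) := by
  classical
  have hr : Summable (fun j : J => z (Sum.inr j) t ^ 2) := hs.comp_injective Sum.inr_injective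
  refine summable_of_sum_le (c := ∑' j : J, z (Sum.inr j) t ^ 2) (fun m => sq_nonneg _) (fun I => ?_)
  have h1 : ∀ m, wz g z m t ^ 2 = ∑ j ∈ (h.fin m).toFinset, z (Sum.inr j) t ^ 2 := by
    intro m
    rw [wz_eq h, Real.sq_sqrt (Finset.sum_nonneg (fun _ _ => sq_nonneg _))]
  simp only [h1]
  rw [← Finset.sum_biUnion]
  · exact hr.sum_le_tsum _ (fun _ _ => sq_nonneg _)
  · intro m _ m' _ hmm
    rw [Function.onFun, Finset.disjoint_left]
    intro j hj hj'
    have h4 : g j = m := by simpa using hj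
    have h5 : g j = m' := by simpa using hj'
    exact hmm (h4.symm.trans h5)

lemma Yt_ge (h : Bs g L M e) (z : Ix J → ℝ → ℝ) (t : ℝ) (hs : Summable (fun a => z a t ^ 2))
    (m : ℕ) : |z (Sum.inl m) t| ≤ √(Yt (fun n => z (Sum.inl n)) (wz g z) m t) ∧
      wz g z m t ≤ √(Yt (fun n => z (Sum.inl n)) (wz g z) m t) := by
  have h1 : Summable (fun n => z (Sum.inl n) t ^ 2) := hs.comp_injective Sum.inl_injective
  have h2 := h1.add (wz_sum h z t hs)
  have h3 : Summable (fun k => z (Sum.inl (m + k)) t ^ 2 + wz g z (m + k) t ^ 2) :=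
    h2.comp_injective (add_right_injective m)
  have h4 := h3.le_tsum 0 (fun k _ => by positivity)
  rw [add_zero] at h4
  have h5 : z (Sum.inl m) t ^ 2 + wz g z m t ^ 2 ≤ Yt (fun n => z (Sum.inl n)) (wz g z) m t := h4
  constructor
  · apply Real.abs_le_sqrt
    nlinarith [sq_nonneg (wz g z m t)]
  · apply Real.le_sqrt_of_sq_le
    nlinarith [sq_nonneg (z (Sum.inl m) t)]

lemma field_le (W : Fam) (hW : Summable (fun k => ‖W k‖)) (y : E3) :
    ‖fieldOf W y‖ ≤ ∑' k, ‖W k‖ := by
  unfold fieldOf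
  have h1 : ∀ k, ‖Real.sin (2 * Real.pi * inner ℝ (vec k) y) • W k‖ ≤ ‖W k‖ := by
    intro k
    rw [norm_smul, Real.norm_eq_abs]
    have := Real.abs_sin_le_one (2 * Real.pi * inner ℝ (vec k) y)
    nlinarith [norm_nonneg (W k)]
  have h2 : Summable (fun k => ‖Real.sin (2 * Real.pi * inner ℝ (vec k) y) • W k‖) :=
    Summable.of_nonneg_of_le (fun _ => norm_nonneg _) h1 hW
  exact (norm_tsum_le_tsum_norm h2).trans (h2.tsum_le_tsum h1 hW)

/-- the `ℓ¹`-norm, in groups -/
lemma l1_bound (h : Bs g L M e) {z : Ix J → ℝ} (hz : Summable (fun a => |z a| * M (gr g a)))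
    (b : ℕ → ℝ)
    (hb : ∀ m, |z (Sum.inl m)| * ∑' k, ‖e (Sum.inl m) k‖ + ∑' k, ‖syn e (zr g z m) k‖ ≤ b m)
    (Bd : ℝ) (hB : ∀ I : Finset ℕ, ∑ m ∈ I, b m ≤ Bd) : ∑' k, ‖syn e z k‖ ≤ Bd := by
  classical
  set Am : ℕ → Z3 → ℝ := fun m k => |z (Sum.inl m)| * ‖e (Sum.inl m) k‖ +
    ‖syn e (zr g z m) k‖ with hAm
  have hAm0 : ∀ m k, 0 ≤ Am m k := fun m k => by simp only [hAm]; positivity
  have hs1 : ∀ m, Summable (fun k => |z (Sum.inl m)| * ‖e (Sum.inl m) k‖) :=
    fun m => (e_summable h _).mul_left _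
  have hs2 : ∀ m, Summable (fun k => ‖syn e (zr g z m) k‖) :=
    fun m => syn_norm_summable h (zr_good h.fin z m)
  have hAs : ∀ m, Summable (Am m) := fun m => (hs1 m).add (hs2 m)
  have hAt : ∀ m, ∑' k, Am m k ≤ b m := by
    intro m
    simp only [hAm]
    rw [(hs1 m).tsum_add (hs2 m), tsum_mul_left]
    exact hb m
  have hmk : ∀ k : Z3, ∃ m, ‖syn e z k‖ ≤ Am m k := by
    intro k
    by_cases hk : ∃ a, e a k ≠ 0
    · obtain ⟨a₀, ha₀⟩ := hk
      refine ⟨gr g a₀, ?_⟩
      rw [group_split h (z := z) a₀ k ha₀]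
      refine (norm_add_le _ _).trans ?_
      rw [norm_smul, Real.norm_eq_abs]
    · push Not at hk
      refine ⟨0, ?_⟩
      have : syn e z k = 0 := by
        unfold syn
        simp [hk]
      rw [this]
      simpa using hAm0 0 k
  choose mk hmk using hmk
  have key : ∀ K : Finset Z3, ∑ k ∈ K, ‖syn e z k‖ ≤ Bd := by
    intro K
    set I := K.image mk with hI
    calc ∑ k ∈ K, ‖syn e z k‖ ≤ ∑ k ∈ K, Am (mk k) k :=
          Finset.sum_le_sum (fun k _ => hmk k)
      _ ≤ ∑ k ∈ K, ∑ m ∈ I, Am m k := by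
          refine Finset.sum_le_sum (fun k hk => ?_)
          exact Finset.single_le_sum (f := fun m => Am m k) (fun m _ => hAm0 m k)
            (Finset.mem_image_of_mem mk hk)
      _ = ∑ m ∈ I, ∑ k ∈ K, Am m k := Finset.sum_comm
      _ ≤ ∑ m ∈ I, ∑' k, Am m k :=
          Finset.sum_le_sum (fun m _ => (hAs m).sum_le_tsum K (fun k _ => hAm0 m k))
      _ ≤ ∑ m ∈ I, b m := Finset.sum_le_sum (fun m _ => hAt m)
      _ ≤ Bd := hB I
  exact (syn_norm_summable h hz).tsum_le_of_sum_le key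

lemma geo_sum (n : ℕ) (I : Finset ℕ) :
    ∑ m ∈ I, (if m ≤ n then (1 / 2 : ℝ) ^ (n - m) else (1 / 2) ^ (m - n)) ≤ 4 := by
  classical
  have hg : ∀ K : Finset ℕ, ∑ k ∈ K, (1 / 2 : ℝ) ^ k ≤ 2 := by
    intro K
    have := (summable_geometric_two).sum_le_tsum K (fun k _ => by positivity)
    rwa [tsum_geometric_two] at this
  rw [Finset.sum_ite]
  have h1 : ∑ m ∈ I with m ≤ n, (1 / 2 : ℝ) ^ (n - m) =
      ∑ k ∈ (I.filter (fun m => m ≤ n)).image (fun m => n - m), (1 / 2 : ℝ) ^ k := by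
    rw [Finset.sum_image]
    intro a ha b hb hab
    simp only [Finset.coe_filter, Set.mem_ofPred_eq] at ha hb
    have hab' : n - a = n - b := hab
    omega
  have h2 : ∑ m ∈ I with ¬ m ≤ n, (1 / 2 : ℝ) ^ (m - n) =
      ∑ k ∈ (I.filter (fun m => ¬ m ≤ n)).image (fun m => m - n), (1 / 2 : ℝ) ^ k := by
    rw [Finset.sum_image]
    intro a ha b hb hab
    simp only [Finset.coe_filter, Set.mem_ofPred_eq] at ha hb
    have hab' : a - n = b - n := hab
    omega
  rw [h1, h2]
  have h3 := hg ((I.filter (fun m => m ≤ n)).image (fun m => n - m))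
  have h4 := hg ((I.filter (fun m => ¬ m ≤ n)).image (fun m => m - n))
  linarith

end gen

/-! ### Numerical bounds -/

lemma lam_exp {lam : ℝ} (h : 10 ^ 30 ≤ lam) : lam ≤ Real.exp (lam / 1000) := by
  have h1 : (0:ℝ) ≤ lam / 1000 := by
    have : (0:ℝ) ≤ 10 ^ 30 := by norm_num
    linarith
  have h2 := Real.quadratic_le_exp_of_nonneg h1
  have h3 : lam ≤ (lam / 1000) ^ 2 / 2 := by nlinarith
  linarith

lemma exp_small {lam x : ℝ} (h : 10 ^ 30 ≤ lam) (hx : lam / 1000 ≤ x) :
    Real.exp (-x) ≤ 1 / 10 ^ 10 := by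
  have h2 : (10:ℝ) ^ 10 ≤ Real.exp x := by
    have h3 := Real.add_one_le_exp x
    have : (10:ℝ) ^ 10 ≤ 10 ^ 30 / 1000 := by norm_num
    linarith
  rw [Real.exp_neg, ← one_div]
  exact one_div_le_one_div_of_le (by positivity) h2

lemma pow_q (k : ℕ) : 201 * (1000 / 9 : ℝ) ^ (k + 1) ≤
    1 / 20000 * (1 / 2) ^ (k + 1) * 10 ^ (9 * (k + 1)) := by
  have h1 : (10:ℝ) ^ (9 * (k + 1)) = (10 ^ 9) ^ (k + 1) := by rw [← pow_mul]
  rw [h1]
  have h2 : 1 / 20000 * (1 / 2 : ℝ) ^ (k + 1) * (10 ^ 9) ^ (k + 1) =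
      1 / 20000 * (1 / 2 * 10 ^ 9) ^ (k + 1) := by rw [mul_pow]; ring
  rw [h2]
  induction k with
  | zero => norm_num
  | succ k ih =>
    rw [pow_succ, pow_succ (1 / 2 * 10 ^ 9 : ℝ)]
    have h3 : (0:ℝ) ≤ (1 / 2 * 10 ^ 9) ^ (k + 1) := by positivity
    have h4 : (0:ℝ) ≤ (1000 / 9) ^ (k + 1) := by positivity
    have h5 := ih (by rw [← pow_mul]) (by rw [mul_pow]; ring)
    nlinarith

section conc

variable {J : Type} {ν α lam Λ M : ℝ} {g : J → ℕ} {F L C ℓ N G : ℕ → ℝ} {B : ℕ → ℕ → ℝ}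
  {e : Ix J → Fam} {c : Ix J → Ix J → Ix J → ℝ} {M' : ℕ → ℝ}

lemma N_pow (hc : Conc2 ν α lam g F L ℓ N G e) (m k : ℕ) : N m * 10 ^ (9 * k) ≤ N (m + k) := by
  induction k with
  | zero => simp
  | succ k ih =>
    have h1 := hc.N_grow (m + k)
    have h2 : (10:ℝ) ^ (9 * (k + 1)) = 10 ^ (9 * k) * 10 ^ 9 := by rw [mul_add, pow_add, mul_one]
    rw [h2]
    have h3 : N (m + (k + 1)) = N (m + k + 1) := rfl
    rw [h3]
    linarith

lemma zr_l1 (hc : Conc2 ν α lam g F L ℓ N G e) (h : Bs g L M' e) (z : Ix J → ℝ → ℝ) (t : ℝ)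
    (m : ℕ) : ∑' k, ‖syn e (zr g (fun a => z a t) m) k‖ ≤ G m * wz g z m t := by
  have h1 := (l1l2 hc m (syn e (zr g (fun a => z a t) m)) (fun k hk => zr_group _ m k hk)).2
  rw [zr_energy h, ← wz_eq h] at h1
  exact h1

theorem blow_lower (hc : Conc2 ν α lam g F L ℓ N G e) (h : Bs g L M' e)
    (hlam : 10 ^ 30 ≤ lam) (z : Ix J → ℝ → ℝ) (t : ℝ)
    (hz : Summable (fun a => |z a t| * M' (gr g a))) (hs : Summable (fun a => z a t ^ 2))
    (n : ℕ) (A : ℝ) (hA0 : 0 ≤ A) (hx : 99 / 100 * A ≤ z (Sum.inl n) t)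
    (hlo : ∀ i < n, |z (Sum.inl i) t| ≤ 200 * (1000 / 9) ^ (n - i) * A)
    (hw : ∀ i ≤ n, wz g z i t ≤ Real.exp (-(lam / 10)) * (1000 / 9) ^ (n - i) * A)
    (hY : ∀ k : ℕ, √(Yt (fun n => z (Sum.inl n)) (wz g z) (n + 1 + k) t) ≤
      Real.exp (-(lam / 100 * (k + 1))) * A) :
    ∃ y, A * N n / 2000 ≤ ‖fieldOf (syn e (fun a => z a t)) y‖ := by
  classical
  obtain ⟨y, hy⟩ := hc.pt n
  refine ⟨y, ?_⟩
  have hy' : N n / 1000 ≤ ‖fieldOf (e (Sum.inl n)) y‖ := hy
  have hlam0 : 0 ≤ lam := le_trans (by norm_num) hlam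
  have hNn := N_one hc n
  have hAN : 0 ≤ A * N n := by positivity
  set z' : Ix J → ℝ → ℝ := fun a s => if a = Sum.inl n then 0 else z a s with hz'
  have hz'g : Summable (fun a => |z' a t| * M' (gr g a)) := by
    refine Summable.of_nonneg_of_le (fun a => mul_nonneg (abs_nonneg _) (M_nonneg h a))
      (fun a => ?_) hz
    refine mul_le_mul_of_nonneg_right ?_ (M_nonneg h a)
    simp only [hz']
    split_ifs
    · rw [abs_zero]; exact abs_nonneg _
    · exact le_rfl
  have hwz : ∀ m, wz g z' m t = wz g z m t := by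
    intro m
    unfold wz
    congr 1
  -- decomposition
  have hsplit : fieldOf (syn e (fun a => z a t)) y =
      z (Sum.inl n) t • fieldOf (e (Sum.inl n)) y + fieldOf (syn e (fun a => z' a t)) y := by
    rw [fieldOf_syn h hz, fieldOf_syn h hz'g]
    have hsum : Summable (fun a => z a t • fieldOf (e a) y) := by
      refine Summable.of_norm_bounded hz (fun a => ?_)
      rw [norm_smul, Real.norm_eq_abs]
      exact mul_le_mul_of_nonneg_left ((field_le (e a) (e_summable h a) y).trans (h.l1 a))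
        (abs_nonneg _)
    rw [hsum.tsum_eq_add_tsum_ite (Sum.inl n)]
    congr 1
    apply tsum_congr
    intro a
    simp only [hz']
    split_ifs
    · rw [zero_smul]
    · rfl
  have hex1 : Real.exp (lam / 1000) * Real.exp (-(lam / 10)) ≤ 1 / 10 ^ 10 := by
    rw [← Real.exp_add]
    have : lam / 1000 + -(lam / 10) = -(99 * lam / 1000) := by ring
    rw [this]
    exact exp_small hlam (by linarith)
  have hex2 : 2 * (lam * (Real.exp (lam / 1000) * Real.exp (-(lam / 100)))) ≤ 1 / 40000 := by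
    have h1 := lam_exp hlam
    have h2 : lam * (Real.exp (lam / 1000) * Real.exp (-(lam / 100))) ≤
        Real.exp (lam / 1000) * (Real.exp (lam / 1000) * Real.exp (-(lam / 100))) :=
      mul_le_mul_of_nonneg_right h1 (by positivity)
    rw [← Real.exp_add, ← Real.exp_add] at h2
    have h3 : lam / 1000 + (lam / 1000 + -(lam / 100)) = -(8 * lam / 1000) := by ring
    rw [h3] at h2
    have h4 := exp_small hlam (x := 8 * lam / 1000) (by linarith)
    rw [← Real.exp_add] at *
    norm_num at h4 ⊢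
    linarith
  have hGn : ∀ m, G m ≤ Real.exp (lam / 1000) * N m := hc.G_le
  have hw0 : ∀ m, 0 ≤ wz g z m t := fun m => Real.sqrt_nonneg _
  -- bounds in the groups
  have hb : ∀ m, |z' (Sum.inl m) t| * ∑' k, ‖e (Sum.inl m) k‖ +
      ∑' k, ‖syn e (zr g (fun a => z' a t) m) k‖ ≤
      A * N n * (1 / 20000) * (if m ≤ n then (1 / 2 : ℝ) ^ (n - m) else (1 / 2) ^ (m - n)) := by
    intro m
    have h1 := zr_l1 hc h z' t m
    rw [hwz] at h1
    have h2 : |z' (Sum.inl m) t| * ∑' k, ‖e (Sum.inl m) k‖ ≤ |z' (Sum.inl m) t| * N m :=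
      mul_le_mul_of_nonneg_left (hc.l1N m) (abs_nonneg _)
    have hNm := N_one hc m
    have h3 : G m * wz g z m t ≤ Real.exp (lam / 1000) * N m * wz g z m t :=
      mul_le_mul_of_nonneg_right (hGn m) (hw0 m)
    refine (add_le_add h2 (h1.trans h3)).trans ?_
    rcases lt_trichotomy m n with hmn | hmn | hmn
    · -- m < n
      obtain ⟨k, rfl⟩ : ∃ k, n = m + (k + 1) := ⟨n - m - 1, by omega⟩
      have hsub : m + (k + 1) - m = k + 1 := by omega
      have h4 := hlo m hmn
      have h5 := hw m hmn.le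
      rw [hsub] at h4 h5
      rw [if_pos hmn.le, hsub]
      have h6 : z' (Sum.inl m) t = z (Sum.inl m) t := by
        simp only [hz']
        rw [if_neg]
        intro h0
        have := Sum.inl_injective h0
        omega
      rw [h6]
      have h7 : Real.exp (lam / 1000) * N m * wz g z m t ≤ 1 * (1000 / 9) ^ (k + 1) * A * N m := by
        calc Real.exp (lam / 1000) * N m * wz g z m t
            ≤ Real.exp (lam / 1000) * N m * (Real.exp (-(lam / 10)) * (1000 / 9) ^ (k + 1) * A) :=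
              mul_le_mul_of_nonneg_left h5 (by positivity)
          _ = (Real.exp (lam / 1000) * Real.exp (-(lam / 10))) * ((1000 / 9) ^ (k + 1) * A * N m) := by
              ring
          _ ≤ (1 / 10 ^ 10) * ((1000 / 9) ^ (k + 1) * A * N m) :=
              mul_le_mul_of_nonneg_right hex1 (by positivity)
          _ ≤ 1 * ((1000 / 9) ^ (k + 1) * A * N m) :=
              mul_le_mul_of_nonneg_right (by norm_num) (by positivity)
          _ = _ := by ring
      have h8 : |z (Sum.inl m) t| * N m ≤ 200 * (1000 / 9) ^ (k + 1) * A * N m :=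
        mul_le_mul_of_nonneg_right h4 (by linarith)
      have h9 := pow_q k
      have h10 := N_pow hc m (k + 1)
      calc |z (Sum.inl m) t| * N m + Real.exp (lam / 1000) * N m * wz g z m t
          ≤ (201 * (1000 / 9) ^ (k + 1)) * (A * N m) := by linarith
        _ ≤ (1 / 20000 * (1 / 2) ^ (k + 1) * 10 ^ (9 * (k + 1))) * (A * N m) :=
            mul_le_mul_of_nonneg_right h9 (by positivity)
        _ = A * (1 / 20000 * (1 / 2) ^ (k + 1)) * (N m * 10 ^ (9 * (k + 1))) := by ring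
        _ ≤ A * (1 / 20000 * (1 / 2) ^ (k + 1)) * N (m + (k + 1)) :=
            mul_le_mul_of_nonneg_left h10 (by positivity)
        _ = _ := by ring
    · -- m = n
      subst hmn
      rw [if_pos le_rfl]
      have h5 := hw m le_rfl
      simp only [Nat.sub_self, pow_zero, mul_one] at h5 ⊢
      have h6 : z' (Sum.inl m) t = 0 := by simp [hz']
      rw [h6, abs_zero, zero_mul, zero_add]
      calc Real.exp (lam / 1000) * N m * wz g z m t
          ≤ Real.exp (lam / 1000) * N m * (Real.exp (-(lam / 10)) * A) :=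
            mul_le_mul_of_nonneg_left h5 (by positivity)
        _ = (Real.exp (lam / 1000) * Real.exp (-(lam / 10))) * (A * N m) := by ring
        _ ≤ (1 / 10 ^ 10) * (A * N m) := mul_le_mul_of_nonneg_right hex1 (by positivity)
        _ ≤ (1 / 20000) * (A * N m) := mul_le_mul_of_nonneg_right (by norm_num) (by positivity)
        _ = _ := by ring
    · -- m > n
      obtain ⟨k, rfl⟩ : ∃ k, m = n + 1 + k := ⟨m - n - 1, by omega⟩
      rw [if_neg (by omega)]
      have hsub : n + 1 + k - n = k + 1 := by omega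
      rw [hsub]
      obtain ⟨h4, h5⟩ := Yt_ge h z t hs (n + 1 + k)
      have h6 : z' (Sum.inl (n + 1 + k)) t = z (Sum.inl (n + 1 + k)) t := by
        simp only [hz']
        rw [if_neg]
        intro h0
        have := Sum.inl_injective h0
        omega
      rw [h6]
      have h7 := hY k
      have h8 := N_eq hc hlam0 n (k + 1)
      have h8' : N (n + 1 + k) ≤ lam ^ (k + 1) * N n := by
        have : n + 1 + k = n + (k + 1) := by omega
        rw [this]; exact h8
      have hE1 : 1 ≤ Real.exp (lam / 1000) := Real.one_le_exp (by positivity)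
      set Y := √(Yt (fun n => z (Sum.inl n)) (wz g z) (n + 1 + k) t) with hYd
      have hY0 : 0 ≤ Y := Real.sqrt_nonneg _
      have h9 : Real.exp (-(lam / 100 * ((k:ℝ) + 1))) = Real.exp (-(lam / 100)) ^ (k + 1) := by
        rw [← Real.exp_nat_mul]
        congr 1
        push_cast
        ring
      rw [h9] at h7
      have hEk : Real.exp (lam / 1000) ≤ Real.exp (lam / 1000) ^ (k + 1) := by
        rw [pow_succ]
        have : 1 ≤ Real.exp (lam / 1000) ^ k := one_le_pow₀ hE1
        nlinarith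
      have h2k : (2:ℝ) ≤ 2 ^ (k + 1) := by
        rw [pow_succ]
        have : (1:ℝ) ≤ 2 ^ k := one_le_pow₀ (by norm_num)
        linarith
      have h40 : ((1:ℝ) / 40000) ^ (k + 1) ≤ 1 / 20000 * (1 / 2) ^ (k + 1) := by
        have h11 : ((1:ℝ) / 40000) = 1 / 20000 * (1 / 2) := by norm_num
        rw [h11, mul_pow]
        refine mul_le_mul_of_nonneg_right ?_ (by positivity)
        calc ((1:ℝ) / 20000) ^ (k + 1) ≤ (1 / 20000) ^ 1 :=
              pow_le_pow_of_le_one (by norm_num) (by norm_num) (by omega)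
          _ = 1 / 20000 := pow_one _
      calc |z (Sum.inl (n + 1 + k)) t| * N (n + 1 + k) +
            Real.exp (lam / 1000) * N (n + 1 + k) * wz g z (n + 1 + k) t
          ≤ Y * N (n + 1 + k) + Real.exp (lam / 1000) * N (n + 1 + k) * Y := by
            gcongr
        _ ≤ 2 * (Real.exp (lam / 1000) * (Y * N (n + 1 + k))) := by
            have : Y * N (n + 1 + k) ≤ Real.exp (lam / 1000) * (Y * N (n + 1 + k)) := by
              have : 0 ≤ Y * N (n + 1 + k) := by positivity
              nlinarith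
            linarith
        _ ≤ 2 ^ (k + 1) * (Real.exp (lam / 1000) ^ (k + 1) *
              ((Real.exp (-(lam / 100)) ^ (k + 1) * A) * (lam ^ (k + 1) * N n))) := by
            gcongr
        _ = (2 * (lam * (Real.exp (lam / 1000) * Real.exp (-(lam / 100))))) ^ (k + 1) *
              (A * N n) := by
            simp only [mul_pow]; ring
        _ ≤ (1 / 40000) ^ (k + 1) * (A * N n) := by
            gcongr
        _ ≤ (1 / 20000 * (1 / 2) ^ (k + 1)) * (A * N n) :=
            mul_le_mul_of_nonneg_right h40 hAN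
        _ = _ := by ring
  have hB : ∀ I : Finset ℕ, ∑ m ∈ I, (A * N n * (1 / 20000) *
      (if m ≤ n then (1 / 2 : ℝ) ^ (n - m) else (1 / 2) ^ (m - n))) ≤ A * N n * (1 / 5000) := by
    intro I
    rw [← Finset.mul_sum]
    have h1 := geo_sum n I
    calc A * N n * (1 / 20000) * _ ≤ A * N n * (1 / 20000) * 4 :=
          mul_le_mul_of_nonneg_left h1 (by positivity)
      _ = _ := by ring
  have hrest := l1_bound h hz'g _ hb _ hB
  have hrest' := (field_le _ (syn_norm_summable h hz'g) y).trans hrest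
  have hmain : A * N n * (99 / 100000) ≤ ‖z (Sum.inl n) t • fieldOf (e (Sum.inl n)) y‖ := by
    rw [norm_smul, Real.norm_eq_abs]
    calc A * N n * (99 / 100000) = (99 / 100 * A) * (N n / 1000) := by ring
      _ ≤ |z (Sum.inl n) t| * ‖fieldOf (e (Sum.inl n)) y‖ :=
          mul_le_mul (hx.trans (le_abs_self _)) hy' (by positivity) (abs_nonneg _)
  have hfin : ‖z (Sum.inl n) t • fieldOf (e (Sum.inl n)) y‖ ≤
      ‖fieldOf (syn e (fun a => z a t)) y‖ + ‖fieldOf (syn e (fun a => z' a t)) y‖ := by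
    have : z (Sum.inl n) t • fieldOf (e (Sum.inl n)) y =
        fieldOf (syn e (fun a => z a t)) y - fieldOf (syn e (fun a => z' a t)) y := by
      rw [hsplit]; abel
    rw [this]
    exact norm_sub_le _ _
  linarith

lemma N_unbounded (hc : Conc2 ν α lam g F L ℓ N G e) (R : ℝ) :
    ∃ n, R < (9 / 1000) ^ n * N n := by
  obtain ⟨n, hn⟩ := pow_unbounded_of_one_lt R (one_lt_two)
  refine ⟨n, hn.trans_le ?_⟩
  have h1 := N_pow hc 0 n
  rw [zero_add] at h1
  have h2 := N_one hc 0
  calc (2:ℝ) ^ n ≤ (9 / 1000 * 10 ^ 9) ^ n := pow_le_pow_left₀ (by norm_num) (by norm_num) n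
    _ = (9 / 1000) ^ n * (1 * 10 ^ (9 * n)) := by rw [mul_pow, ← pow_mul, one_mul]
    _ ≤ (9 / 1000) ^ n * (N 0 * 10 ^ (9 * n)) := by gcongr
    _ ≤ (9 / 1000) ^ n * N n := mul_le_mul_of_nonneg_left h1 (by positivity)

end conc

end Pool.Agent.Y274.NE
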